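import Pool.Agent.TH688.FA.Nil
import Pool.Agent.TH688.FA.C0
import Pool.Agent.TH688.FA.C1
import Pool.Agent.TH688.FA.C2
import Pool.Agent.TH688.FA.C3
import Pool.Agent.TH688.FA.C4
import Pool.Agent.TH688.FA.C5
import Pool.Agent.TH688.FA.C6
import Pool.Agent.TH688.FA.C7
import Pool.Agent.TH688.FA.C8
import Pool.Agent.TH688.FA.C9
import Pool.Agent.TH688.FA.C10
import Pool.Agent.TH688.FA.C11
import Pool.Agent.TH688.FA.C12
import Pool.Agent.TH688.FA.C13
import Pool.Agent.TH688.FA.C14
import Pool.Agent.TH688.FA.C15
import Pool.Agent.TH688.FA.C16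
import Pool.Agent.TH688.FA.C17
import Pool.Agent.TH688.FA.C18
import Pool.Agent.TH688.FA.C19
import Pool.Agent.TH688.FA.C20
import Pool.Agent.TH688.FA.C21
import Pool.Agent.TH688.FA.C22
import Pool.Agent.TH688.FA.C23
import Pool.Agent.TH688.FA.C24
import Pool.Agent.TH688.FA.C25
import Pool.Agent.TH688.FA.C26
import Pool.Agent.TH688.FA.C27
import Pool.Agent.TH688.FA.C28
import Pool.Agent.TH688.FA.C29
import Pool.Agent.TH688.FA.C30
import Pool.Agent.TH688.FA.C31
import Pool.Agent.TH688.FA.C32
import Pool.Agent.TH688.FA.C33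
import Pool.Agent.TH688.FA.C34
import Pool.Agent.TH688.FA.C35

/-! # The enumeration below some prefixes (generated) -/

namespace Pool.Agent.TH688.FA

open Pool.Agent.W664.Fill

/-- The canonical configurations below a prefix. -/
noncomputable def p0 : D := d0

theorem e0 : nilB (enumO 14 4503599627370496 7 13 7 7 p0) = true := by decide +kernel

/-- The canonical configurations below a prefix. -/
noncomputable def p1 : D := D.app d1 (D.app d2 (D.app d3 (D.app d4 (d5))))

theorem e1 : nilB (enumO 14 4503599627370496 8 12 7 135 p1) = true := by decide +kernel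

/-- The canonical configurations below a prefix. -/
noncomputable def p2 : D := D.app d6 (D.app d7 (D.app d8 (D.app d9 (D.app d10 (D.app d11 (D.app d12 (D.app d13 (D.app d14 (D.app d15 (D.app d16 (D.app d17 (D.app d18 (D.app d19 (D.app d20 (D.app d21 (D.app d22 (D.app d23 (D.app d24 (D.app d25 (D.app d26 (D.app d27 (D.app d28 (D.app d29 (D.app d30 (D.app d31 (D.app d32 (D.app d33 (D.app d34 (D.app d35 (D.app d36 (D.app d37 (D.app d38 (D.app d39 (D.app d40 (D.app d41 (D.app d42 (D.app d43 (D.app d44 (D.app d45 (D.app d46 (D.app d47 (D.app d48 (D.app d49 (D.app d50 (D.app d51 (D.app d52 (D.app d53 (D.app d54 (D.app d55 (D.app d56 (D.app d57 (D.app d58 (D.app d59 (D.app d60 (D.app d61 (D.app d62 (D.app d63 (D.app d64 (D.app d65 (D.app d66 (D.app d67 (D.app d68 (d69)))))))))))))))))))))))))))))))))))))))))))))))))))))))))))))))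

theorem e2 : nilB (enumO 14 4503599627370496 8 12 8 136 p2) = true := by decide +kernel

/-- The canonical configurations below a prefix. -/
noncomputable def p3 : D := D.app d70 (D.app d71 (D.app d72 (D.app d73 (D.app d74 (D.app d75 (D.app d76 (D.app d77 (D.app d78 (D.app d79 (D.app d80 (D.app d81 (D.app d82 (D.app d83 (d84))))))))))))))

theorem e3 : nilB (enumO 14 4503599627370496 9 10 6 39030 p3) = true := by decide +kernel

/-- The canonical configurations below a prefix. -/
noncomputable def p4 : D := D.app d85 (D.app d86 (D.app d87 (D.app d88 (D.app d89 (D.app d90 (D.app d91 (D.app d92 (D.app d93 (D.app d94 (D.app d95 (D.app d96 (D.app d97 (D.app d98 (D.app d99 (D.app d100 (D.app d101 (D.app d102 (D.app d103 (D.app d104 (D.app d105 (D.app d106 (d107))))))))))))))))))))))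

theorem e4 : nilB (enumO 14 4503599627370496 9 10 7 39031 p4) = true := by decide +kernel

end Pool.Agent.TH688.FA
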