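import Pool.Agent.TH688.FA.Nil
import Pool.Agent.TH688.FA.C36
import Pool.Agent.TH688.FA.C37
import Pool.Agent.TH688.FA.C38
import Pool.Agent.TH688.FA.C39
import Pool.Agent.TH688.FA.C40
import Pool.Agent.TH688.FA.C41
import Pool.Agent.TH688.FA.C42
import Pool.Agent.TH688.FA.C43
import Pool.Agent.TH688.FA.C44
import Pool.Agent.TH688.FA.C45
import Pool.Agent.TH688.FA.C46
import Pool.Agent.TH688.FA.C47
import Pool.Agent.TH688.FA.C48
import Pool.Agent.TH688.FA.C49
import Pool.Agent.TH688.FA.C50
import Pool.Agent.TH688.FA.C51
import Pool.Agent.TH688.FA.C52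
import Pool.Agent.TH688.FA.C53
import Pool.Agent.TH688.FA.C54
import Pool.Agent.TH688.FA.C55
import Pool.Agent.TH688.FA.C56
import Pool.Agent.TH688.FA.C57
import Pool.Agent.TH688.FA.C58
import Pool.Agent.TH688.FA.C59
import Pool.Agent.TH688.FA.C60
import Pool.Agent.TH688.FA.C61
import Pool.Agent.TH688.FA.C62
import Pool.Agent.TH688.FA.C63
import Pool.Agent.TH688.FA.C64
import Pool.Agent.TH688.FA.C65
import Pool.Agent.TH688.FA.C66
import Pool.Agent.TH688.FA.C67
import Pool.Agent.TH688.FA.C68
import Pool.Agent.TH688.FA.C69
import Pool.Agent.TH688.FA.C70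
import Pool.Agent.TH688.FA.C71

/-! # The enumeration below some prefixes (generated) -/

namespace Pool.Agent.TH688.FA

open Pool.Agent.W664.Fill

/-- The canonical configurations below a prefix. -/
noncomputable def p5 : D := D.app d108 (D.app d109 (D.app d110 (D.app d111 (D.app d112 (D.app d113 (D.app d114 (D.app d115 (D.app d116 (D.app d117 (D.app d118 (D.app d119 (D.app d120 (D.app d121 (D.app d122 (D.app d123 (D.app d124 (D.app d125 (d126))))))))))))))))))

theorem e5 : nilB (enumO 14 4503599627370496 9 10 8 39032 p5) = true := by decide +kernel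

/-- The canonical configurations below a prefix. -/
noncomputable def p6 : D := D.app d127 (D.app d128 (D.app d129 (D.app d130 (D.app d131 (D.app d132 (D.app d133 (D.app d134 (D.app d135 (D.app d136 (D.app d137 (D.app d138 (D.app d139 (D.app d140 (D.app d141 (D.app d142 (D.app d143 (D.app d144 (D.app d145 (D.app d146 (D.app d147 (D.app d148 (D.app d149 (D.app d150 (D.app d151 (D.app d152 (D.app d153 (d154)))))))))))))))))))))))))))

theorem e6 : nilB (enumO 14 4503599627370496 9 10 7 39047 p6) = true := by decide +kernel

/-- The canonical configurations below a prefix. -/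
noncomputable def p7 : D := D.app d155 (D.app d156 (D.app d157 (D.app d158 (D.app d159 (D.app d160 (D.app d161 (D.app d162 (D.app d163 (D.app d164 (D.app d165 (D.app d166 (D.app d167 (D.app d168 (D.app d169 (D.app d170 (D.app d171 (D.app d172 (D.app d173 (D.app d174 (D.app d175 (D.app d176 (D.app d177 (d178)))))))))))))))))))))))

theorem e7 : nilB (enumO 14 4503599627370496 9 10 8 39048 p7) = true := by decide +kernel

/-- The canonical configurations below a prefix. -/
noncomputable def p8 : D := D.app d179 (D.app d180 (D.app d181 (D.app d182 (D.app d183 (D.app d184 (D.app d185 (D.app d186 (d187))))))))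

theorem e8 : nilB (enumO 14 4503599627370496 9 10 9 39049 p8) = true := by decide +kernel

/-- The canonical configurations below a prefix. -/
noncomputable def p9 : D := D.app d188 (D.app d189 (D.app d190 (D.app d191 (D.app d192 (D.app d193 (D.app d194 (D.app d195 (D.app d196 (D.app d197 (D.app d198 (D.app d199 (D.app d200 (D.app d201 (D.app d202 (D.app d203 (D.app d204 (D.app d205 (D.app d206 (D.app d207 (D.app d208 (D.app d209 (D.app d210 (D.app d211 (D.app d212 (D.app d213 (D.app d214 (d215)))))))))))))))))))))))))))

theorem e9 : nilB (enumO 14 4503599627370496 9 11 9 2441 p9) = true := by decide +kernel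

end Pool.Agent.TH688.FA
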