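import Pool.Agent.TH688.FA.Nil
import Pool.Agent.TH688.FA.C241
import Pool.Agent.TH688.FA.C242

/-! # The enumeration below some prefixes (generated) -/

namespace Pool.Agent.TH688.FA

open Pool.Agent.W664.Fill

/-- The canonical configurations below a prefix. -/
noncomputable def p39 : D := D.app d726 (d727)

theorem e39 : nilB (enumO 14 4503599627370496 12 10 10 52154 p39) = true := by decide +kernel

/-- The canonical configurations below a prefix. -/
noncomputable def p40 : D := d728

theorem e40 : nilB (enumO 14 4503599627370496 12 10 11 52155 p40) = true := by decide +kernel

/-- The canonical configurations below a prefix. -/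
noncomputable def p41 : D := d729

theorem e41 : nilB (enumO 14 4503599627370496 12 10 12 52156 p41) = true := by decide +kernel

/-- The canonical configurations below a prefix. -/
noncomputable def p42 : D := d730

theorem e42 : nilB (enumO 14 4503599627370496 12 11 12 3260 p42) = true := by decide +kernel

end Pool.Agent.TH688.FA
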