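import Pool.Agent.TH688.FA.Nil
import Pool.Agent.TH688.FA.C242
import Pool.Agent.TH688.FA.C243

/-! # The enumeration below some prefixes (generated) -/

namespace Pool.Agent.TH688.FA

open Pool.Agent.W664.Fill

/-- The canonical configurations below a prefix. -/
noncomputable def p43 : D := D.app d731 (d732)

theorem e43 : nilB (enumO 14 4503599627370496 12 10 10 52410 p43) = true := by decide +kernel

/-- The canonical configurations below a prefix. -/
noncomputable def p44 : D := d733

theorem e44 : nilB (enumO 14 4503599627370496 12 10 11 52411 p44) = true := by decide +kernel

/-- The canonical configurations below a prefix. -/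
noncomputable def p45 : D := d734

theorem e45 : nilB (enumO 14 4503599627370496 12 10 12 52412 p45) = true := by decide +kernel

/-- The canonical configurations below a prefix. -/
noncomputable def p46 : D := d735

theorem e46 : nilB (enumO 14 4503599627370496 12 11 12 3276 p46) = true := by decide +kernel

end Pool.Agent.TH688.FA
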