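import Pool.Agent.TH688.FA.Nil
import Pool.Agent.TH688.FA.C243

/-! # The enumeration below some prefixes (generated) -/

namespace Pool.Agent.TH688.FA

open Pool.Agent.W664.Fill

/-- The canonical configurations below a prefix. -/
noncomputable def p47 : D := d736

theorem e47 : nilB (enumO 14 4503599627370496 13 10 10 56506 p47) = true := by decide +kernel

/-- The canonical configurations below a prefix. -/
noncomputable def p48 : D := d737

theorem e48 : nilB (enumO 14 4503599627370496 13 10 11 56507 p48) = true := by decide +kernel

/-- The canonical configurations below a prefix. -/
noncomputable def p49 : D := d738

theorem e49 : nilB (enumO 14 4503599627370496 13 10 12 56508 p49) = true := by decide +kernel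

end Pool.Agent.TH688.FA
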