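import Pool.Agent.TH688.FA.Nil
import Pool.Agent.TH688.FA.C243

/-! # The enumeration below some prefixes (generated) -/

namespace Pool.Agent.TH688.FA

open Pool.Agent.W664.Fill

/-- The canonical configurations below a prefix. -/
noncomputable def p50 : D := d739

theorem e50 : nilB (enumO 14 4503599627370496 13 10 11 56523 p50) = true := by decide +kernel

/-- The canonical configurations below a prefix. -/
noncomputable def p51 : D := d740

theorem e51 : nilB (enumO 14 4503599627370496 13 10 12 56524 p51) = true := by decide +kernel

/-- The canonical configurations below a prefix. -/
noncomputable def p52 : D := D.nil

theorem e52 : nilB (enumO 14 4503599627370496 13 10 13 56525 p52) = true := by decide +kernel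

/-- The canonical configurations below a prefix. -/
noncomputable def p53 : D := d741

theorem e53 : nilB (enumO 14 4503599627370496 13 11 13 3533 p53) = true := by decide +kernel

end Pool.Agent.TH688.FA
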