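import Pool.Agent.TH688.FA.Nil
import Pool.Agent.TH688.FA.C243

/-! # The enumeration below some prefixes (generated) -/

namespace Pool.Agent.TH688.FA

open Pool.Agent.W664.Fill

/-- The canonical configurations below a prefix. -/
noncomputable def p58 : D := d745

theorem e58 : nilB (enumO 14 4503599627370496 14 10 11 60875 p58) = true := by decide +kernel

/-- The canonical configurations below a prefix. -/
noncomputable def p59 : D := D.nil

theorem e59 : nilB (enumO 14 4503599627370496 14 10 12 60876 p59) = true := by decide +kernel

/-- The canonical configurations below a prefix. -/
noncomputable def p60 : D := D.nil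

theorem e60 : nilB (enumO 14 4503599627370496 14 10 13 60877 p60) = true := by decide +kernel

end Pool.Agent.TH688.FA
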