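import Pool.Agent.TH688.FA.Nil

/-! # The enumeration below some prefixes (generated) -/

namespace Pool.Agent.TH688.FA

open Pool.Agent.W664.Fill

/-- The canonical configurations below a prefix. -/
noncomputable def p61 : D := D.nil

theorem e61 : nilB (enumO 14 4503599627370496 14 10 12 60892 p61) = true := by decide +kernel

/-- The canonical configurations below a prefix. -/
noncomputable def p62 : D := D.nil

theorem e62 : nilB (enumO 14 4503599627370496 14 10 13 60893 p62) = true := by decide +kernel

/-- The canonical configurations below a prefix. -/
noncomputable def p63 : D := D.nil

theorem e63 : nilB (enumO 14 4503599627370496 14 10 14 60894 p63) = true := by decide +kernel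

/-- The canonical configurations below a prefix. -/
noncomputable def p64 : D := D.nil

theorem e64 : nilB (enumO 14 4503599627370496 14 11 14 3806 p64) = true := by decide +kernel

end Pool.Agent.TH688.FA
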