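import Pool.Agent.TH688.FA.Nil
import Pool.Agent.TH688.FA.C72
import Pool.Agent.TH688.FA.C73
import Pool.Agent.TH688.FA.C74
import Pool.Agent.TH688.FA.C75
import Pool.Agent.TH688.FA.C76
import Pool.Agent.TH688.FA.C77
import Pool.Agent.TH688.FA.C78
import Pool.Agent.TH688.FA.C79
import Pool.Agent.TH688.FA.C80
import Pool.Agent.TH688.FA.C81
import Pool.Agent.TH688.FA.C82
import Pool.Agent.TH688.FA.C83
import Pool.Agent.TH688.FA.C84
import Pool.Agent.TH688.FA.C85
import Pool.Agent.TH688.FA.C86
import Pool.Agent.TH688.FA.C87
import Pool.Agent.TH688.FA.C88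
import Pool.Agent.TH688.FA.C89
import Pool.Agent.TH688.FA.C90
import Pool.Agent.TH688.FA.C91
import Pool.Agent.TH688.FA.C92
import Pool.Agent.TH688.FA.C93
import Pool.Agent.TH688.FA.C94
import Pool.Agent.TH688.FA.C95
import Pool.Agent.TH688.FA.C96
import Pool.Agent.TH688.FA.C97
import Pool.Agent.TH688.FA.C98
import Pool.Agent.TH688.FA.C99
import Pool.Agent.TH688.FA.C100
import Pool.Agent.TH688.FA.C101
import Pool.Agent.TH688.FA.C102
import Pool.Agent.TH688.FA.C103
import Pool.Agent.TH688.FA.C104
import Pool.Agent.TH688.FA.C105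
import Pool.Agent.TH688.FA.C106
import Pool.Agent.TH688.FA.C107
import Pool.Agent.TH688.FA.C108
import Pool.Agent.TH688.FA.C109
import Pool.Agent.TH688.FA.C110
import Pool.Agent.TH688.FA.C111
import Pool.Agent.TH688.FA.C112
import Pool.Agent.TH688.FA.C113
import Pool.Agent.TH688.FA.C114
import Pool.Agent.TH688.FA.C115
import Pool.Agent.TH688.FA.C116
import Pool.Agent.TH688.FA.C117
import Pool.Agent.TH688.FA.C118
import Pool.Agent.TH688.FA.C119
import Pool.Agent.TH688.FA.C120
import Pool.Agent.TH688.FA.C121
import Pool.Agent.TH688.FA.C122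
import Pool.Agent.TH688.FA.C123
import Pool.Agent.TH688.FA.C124
import Pool.Agent.TH688.FA.C125
import Pool.Agent.TH688.FA.C126
import Pool.Agent.TH688.FA.C127
import Pool.Agent.TH688.FA.C128

/-! # The enumeration below some prefixes (generated) -/

namespace Pool.Agent.TH688.FA

open Pool.Agent.W664.Fill

/-- The canonical configurations below a prefix. -/
noncomputable def p10 : D := D.app d216 (D.app d217 (D.app d218 (D.app d219 (D.app d220 (D.app d221 (D.app d222 (D.app d223 (D.app d224 (D.app d225 (D.app d226 (D.app d227 (D.app d228 (D.app d229 (D.app d230 (D.app d231 (D.app d232 (D.app d233 (D.app d234 (D.app d235 (D.app d236 (D.app d237 (D.app d238 (D.app d239 (D.app d240 (D.app d241 (D.app d242 (D.app d243 (D.app d244 (D.app d245 (D.app d246 (D.app d247 (D.app d248 (D.app d249 (D.app d250 (D.app d251 (D.app d252 (D.app d253 (D.app d254 (D.app d255 (D.app d256 (D.app d257 (d258))))))))))))))))))))))))))))))))))))))))))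

theorem e10 : nilB (enumO 14 4503599627370496 9 10 7 39303 p10) = true := by decide +kernel

/-- The canonical configurations below a prefix. -/
noncomputable def p11 : D := D.app d259 (D.app d260 (D.app d261 (D.app d262 (D.app d263 (D.app d264 (D.app d265 (D.app d266 (D.app d267 (D.app d268 (D.app d269 (D.app d270 (D.app d271 (D.app d272 (D.app d273 (D.app d274 (D.app d275 (D.app d276 (D.app d277 (D.app d278 (D.app d279 (D.app d280 (D.app d281 (D.app d282 (D.app d283 (D.app d284 (D.app d285 (D.app d286 (D.app d287 (D.app d288 (D.app d289 (D.app d290 (D.app d291 (D.app d292 (D.app d293 (D.app d294 (D.app d295 (d296)))))))))))))))))))))))))))))))))))))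

theorem e11 : nilB (enumO 14 4503599627370496 9 10 8 39304 p11) = true := by decide +kernel

/-- The canonical configurations below a prefix. -/
noncomputable def p12 : D := D.app d297 (D.app d298 (D.app d299 (D.app d300 (D.app d301 (D.app d302 (D.app d303 (D.app d304 (D.app d305 (D.app d306 (D.app d307 (D.app d308 (D.app d309 (D.app d310 (D.app d311 (D.app d312 (D.app d313 (D.app d314 (D.app d315 (d316)))))))))))))))))))

theorem e12 : nilB (enumO 14 4503599627370496 9 10 9 39305 p12) = true := by decide +kernel

/-- The canonical configurations below a prefix. -/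
noncomputable def p13 : D := D.app d317 (D.app d318 (D.app d319 (D.app d320 (D.app d321 (D.app d322 (D.app d323 (D.app d324 (D.app d325 (D.app d326 (D.app d327 (D.app d328 (D.app d329 (D.app d330 (D.app d331 (D.app d332 (D.app d333 (D.app d334 (D.app d335 (D.app d336 (D.app d337 (D.app d338 (D.app d339 (D.app d340 (D.app d341 (D.app d342 (D.app d343 (D.app d344 (D.app d345 (D.app d346 (D.app d347 (D.app d348 (D.app d349 (D.app d350 (D.app d351 (D.app d352 (D.app d353 (D.app d354 (D.app d355 (D.app d356 (D.app d357 (D.app d358 (D.app d359 (D.app d360 (D.app d361 (D.app d362 (D.app d363 (D.app d364 (D.app d365 (D.app d366 (D.app d367 (D.app d368 (D.app d369 (D.app d370 (D.app d371 (D.app d372 (D.app d373 (D.app d374 (D.app d375 (D.app d376 (D.app d377 (D.app d378 (D.app d379 (D.app d380 (D.app d381 (D.app d382 (D.app d383 (D.app d384 (d385))))))))))))))))))))))))))))))))))))))))))))))))))))))))))))))))))))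

theorem e13 : nilB (enumO 14 4503599627370496 9 11 9 2457 p13) = true := by decide +kernel

end Pool.Agent.TH688.FA
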