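import Pool.Agent.TH688.FA.Nil
import Pool.Agent.TH688.FA.C128
import Pool.Agent.TH688.FA.C129
import Pool.Agent.TH688.FA.C130
import Pool.Agent.TH688.FA.C131
import Pool.Agent.TH688.FA.C132
import Pool.Agent.TH688.FA.C133
import Pool.Agent.TH688.FA.C134
import Pool.Agent.TH688.FA.C135
import Pool.Agent.TH688.FA.C136
import Pool.Agent.TH688.FA.C137
import Pool.Agent.TH688.FA.C138
import Pool.Agent.TH688.FA.C139
import Pool.Agent.TH688.FA.C140
import Pool.Agent.TH688.FA.C141
import Pool.Agent.TH688.FA.C142
import Pool.Agent.TH688.FA.C143
import Pool.Agent.TH688.FA.C144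
import Pool.Agent.TH688.FA.C145
import Pool.Agent.TH688.FA.C146
import Pool.Agent.TH688.FA.C147
import Pool.Agent.TH688.FA.C148
import Pool.Agent.TH688.FA.C149
import Pool.Agent.TH688.FA.C150
import Pool.Agent.TH688.FA.C151
import Pool.Agent.TH688.FA.C152
import Pool.Agent.TH688.FA.C153

/-! # The enumeration below some prefixes (generated) -/

namespace Pool.Agent.TH688.FA

open Pool.Agent.W664.Fill

/-- The canonical configurations below a prefix. -/
noncomputable def p14 : D := D.app d386 (D.app d387 (D.app d388 (D.app d389 (D.app d390 (D.app d391 (D.app d392 (D.app d393 (D.app d394 (D.app d395 (D.app d396 (D.app d397 (D.app d398 (D.app d399 (D.app d400 (D.app d401 (D.app d402 (D.app d403 (D.app d404 (D.app d405 (D.app d406 (D.app d407 (D.app d408 (D.app d409 (D.app d410 (D.app d411 (D.app d412 (D.app d413 (D.app d414 (D.app d415 (D.app d416 (D.app d417 (d418))))))))))))))))))))))))))))))))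

theorem e14 : nilB (enumO 14 4503599627370496 10 10 7 43399 p14) = true := by decide +kernel

/-- The canonical configurations below a prefix. -/
noncomputable def p15 : D := D.app d419 (D.app d420 (D.app d421 (D.app d422 (D.app d423 (D.app d424 (D.app d425 (D.app d426 (D.app d427 (D.app d428 (D.app d429 (D.app d430 (D.app d431 (D.app d432 (D.app d433 (D.app d434 (D.app d435 (D.app d436 (D.app d437 (D.app d438 (D.app d439 (D.app d440 (D.app d441 (D.app d442 (D.app d443 (D.app d444 (d445))))))))))))))))))))))))))

theorem e15 : nilB (enumO 14 4503599627370496 10 10 8 43400 p15) = true := by decide +kernel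

/-- The canonical configurations below a prefix. -/
noncomputable def p16 : D := D.app d446 (D.app d447 (D.app d448 (D.app d449 (D.app d450 (D.app d451 (D.app d452 (D.app d453 (D.app d454 (D.app d455 (D.app d456 (D.app d457 (D.app d458 (D.app d459 (D.app d460 (d461)))))))))))))))

theorem e16 : nilB (enumO 14 4503599627370496 10 10 9 43401 p16) = true := by decide +kernel

end Pool.Agent.TH688.FA
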