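import Pool.Agent.TH688.FA.Nil
import Pool.Agent.TH688.FA.C154
import Pool.Agent.TH688.FA.C155
import Pool.Agent.TH688.FA.C156
import Pool.Agent.TH688.FA.C157
import Pool.Agent.TH688.FA.C158
import Pool.Agent.TH688.FA.C159
import Pool.Agent.TH688.FA.C160
import Pool.Agent.TH688.FA.C161
import Pool.Agent.TH688.FA.C162
import Pool.Agent.TH688.FA.C163
import Pool.Agent.TH688.FA.C164
import Pool.Agent.TH688.FA.C165
import Pool.Agent.TH688.FA.C166
import Pool.Agent.TH688.FA.C167
import Pool.Agent.TH688.FA.C168
import Pool.Agent.TH688.FA.C169
import Pool.Agent.TH688.FA.C170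
import Pool.Agent.TH688.FA.C171
import Pool.Agent.TH688.FA.C172
import Pool.Agent.TH688.FA.C173
import Pool.Agent.TH688.FA.C174
import Pool.Agent.TH688.FA.C175
import Pool.Agent.TH688.FA.C176
import Pool.Agent.TH688.FA.C177

/-! # The enumeration below some prefixes (generated) -/

namespace Pool.Agent.TH688.FA

open Pool.Agent.W664.Fill

/-- The canonical configurations below a prefix. -/
noncomputable def p17 : D := D.app d462 (D.app d463 (D.app d464 (D.app d465 (D.app d466 (D.app d467 (D.app d468 (D.app d469 (D.app d470 (D.app d471 (D.app d472 (D.app d473 (D.app d474 (D.app d475 (D.app d476 (D.app d477 (D.app d478 (D.app d479 (D.app d480 (D.app d481 (D.app d482 (D.app d483 (D.app d484 (D.app d485 (D.app d486 (D.app d487 (D.app d488 (d489)))))))))))))))))))))))))))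

theorem e17 : nilB (enumO 14 4503599627370496 10 10 8 43416 p17) = true := by decide +kernel

/-- The canonical configurations below a prefix. -/
noncomputable def p18 : D := D.app d490 (D.app d491 (D.app d492 (D.app d493 (D.app d494 (D.app d495 (D.app d496 (D.app d497 (D.app d498 (D.app d499 (D.app d500 (D.app d501 (D.app d502 (D.app d503 (D.app d504 (D.app d505 (D.app d506 (d507)))))))))))))))))

theorem e18 : nilB (enumO 14 4503599627370496 10 10 9 43417 p18) = true := by decide +kernel

/-- The canonical configurations below a prefix. -/
noncomputable def p19 : D := D.app d508 (D.app d509 (D.app d510 (D.app d511 (D.app d512 (d513)))))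

theorem e19 : nilB (enumO 14 4503599627370496 10 10 10 43418 p19) = true := by decide +kernel

/-- The canonical configurations below a prefix. -/
noncomputable def p20 : D := D.app d514 (D.app d515 (D.app d516 (D.app d517 (D.app d518 (D.app d519 (D.app d520 (D.app d521 (D.app d522 (D.app d523 (D.app d524 (D.app d525 (D.app d526 (D.app d527 (D.app d528 (D.app d529 (D.app d530 (D.app d531 (d532))))))))))))))))))

theorem e20 : nilB (enumO 14 4503599627370496 10 11 10 2714 p20) = true := by decide +kernel

end Pool.Agent.TH688.FA
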