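import Pool.Agent.TH688.FA.Nil
import Pool.Agent.TH688.FA.C177
import Pool.Agent.TH688.FA.C178
import Pool.Agent.TH688.FA.C179
import Pool.Agent.TH688.FA.C180
import Pool.Agent.TH688.FA.C181
import Pool.Agent.TH688.FA.C182
import Pool.Agent.TH688.FA.C183
import Pool.Agent.TH688.FA.C184
import Pool.Agent.TH688.FA.C185
import Pool.Agent.TH688.FA.C186
import Pool.Agent.TH688.FA.C187
import Pool.Agent.TH688.FA.C188
import Pool.Agent.TH688.FA.C189
import Pool.Agent.TH688.FA.C190
import Pool.Agent.TH688.FA.C191
import Pool.Agent.TH688.FA.C192
import Pool.Agent.TH688.FA.C193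
import Pool.Agent.TH688.FA.C194
import Pool.Agent.TH688.FA.C195
import Pool.Agent.TH688.FA.C196
import Pool.Agent.TH688.FA.C197
import Pool.Agent.TH688.FA.C198
import Pool.Agent.TH688.FA.C199
import Pool.Agent.TH688.FA.C200
import Pool.Agent.TH688.FA.C201
import Pool.Agent.TH688.FA.C202
import Pool.Agent.TH688.FA.C203
import Pool.Agent.TH688.FA.C204
import Pool.Agent.TH688.FA.C205
import Pool.Agent.TH688.FA.C206
import Pool.Agent.TH688.FA.C207
import Pool.Agent.TH688.FA.C208
import Pool.Agent.TH688.FA.C209
import Pool.Agent.TH688.FA.C210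

/-! # The enumeration below some prefixes (generated) -/

namespace Pool.Agent.TH688.FA

open Pool.Agent.W664.Fill

/-- The canonical configurations below a prefix. -/
noncomputable def p21 : D := D.app d533 (D.app d534 (D.app d535 (D.app d536 (D.app d537 (D.app d538 (D.app d539 (D.app d540 (D.app d541 (D.app d542 (D.app d543 (D.app d544 (D.app d545 (D.app d546 (D.app d547 (D.app d548 (D.app d549 (D.app d550 (D.app d551 (D.app d552 (D.app d553 (D.app d554 (D.app d555 (D.app d556 (D.app d557 (D.app d558 (D.app d559 (D.app d560 (D.app d561 (D.app d562 (D.app d563 (D.app d564 (D.app d565 (D.app d566 (d567))))))))))))))))))))))))))))))))))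

theorem e21 : nilB (enumO 14 4503599627370496 10 10 8 43672 p21) = true := by decide +kernel

/-- The canonical configurations below a prefix. -/
noncomputable def p22 : D := D.app d568 (D.app d569 (D.app d570 (D.app d571 (D.app d572 (D.app d573 (D.app d574 (D.app d575 (D.app d576 (D.app d577 (D.app d578 (D.app d579 (D.app d580 (D.app d581 (D.app d582 (D.app d583 (D.app d584 (D.app d585 (D.app d586 (D.app d587 (D.app d588 (d589)))))))))))))))))))))

theorem e22 : nilB (enumO 14 4503599627370496 10 10 9 43673 p22) = true := by decide +kernel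

/-- The canonical configurations below a prefix. -/
noncomputable def p23 : D := D.app d590 (D.app d591 (D.app d592 (D.app d593 (D.app d594 (D.app d595 (D.app d596 (D.app d597 (D.app d598 (d599)))))))))

theorem e23 : nilB (enumO 14 4503599627370496 10 10 10 43674 p23) = true := by decide +kernel

/-- The canonical configurations below a prefix. -/
noncomputable def p24 : D := D.app d600 (D.app d601 (D.app d602 (D.app d603 (D.app d604 (D.app d605 (D.app d606 (D.app d607 (D.app d608 (D.app d609 (D.app d610 (D.app d611 (D.app d612 (D.app d613 (D.app d614 (D.app d615 (D.app d616 (D.app d617 (D.app d618 (D.app d619 (D.app d620 (D.app d621 (D.app d622 (D.app d623 (D.app d624 (D.app d625 (D.app d626 (D.app d627 (D.app d628 (D.app d629 (D.app d630 (D.app d631 (d632))))))))))))))))))))))))))))))))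

theorem e24 : nilB (enumO 14 4503599627370496 10 11 10 2730 p24) = true := by decide +kernel

end Pool.Agent.TH688.FA
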