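import Pool.Agent.TH688.FA.Nil
import Pool.Agent.TH688.FA.C211
import Pool.Agent.TH688.FA.C212
import Pool.Agent.TH688.FA.C213
import Pool.Agent.TH688.FA.C214
import Pool.Agent.TH688.FA.C215
import Pool.Agent.TH688.FA.C216
import Pool.Agent.TH688.FA.C217
import Pool.Agent.TH688.FA.C218
import Pool.Agent.TH688.FA.C219
import Pool.Agent.TH688.FA.C220
import Pool.Agent.TH688.FA.C221
import Pool.Agent.TH688.FA.C222

/-! # The enumeration below some prefixes (generated) -/

namespace Pool.Agent.TH688.FA

open Pool.Agent.W664.Fill

/-- The canonical configurations below a prefix. -/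
noncomputable def p25 : D := D.app d633 (D.app d634 (D.app d635 (D.app d636 (D.app d637 (D.app d638 (D.app d639 (D.app d640 (D.app d641 (D.app d642 (D.app d643 (D.app d644 (D.app d645 (D.app d646 (D.app d647 (D.app d648 (D.app d649 (D.app d650 (d651))))))))))))))))))

theorem e25 : nilB (enumO 14 4503599627370496 11 10 8 47768 p25) = true := by decide +kernel

/-- The canonical configurations below a prefix. -/
noncomputable def p26 : D := D.app d652 (D.app d653 (D.app d654 (D.app d655 (D.app d656 (D.app d657 (D.app d658 (D.app d659 (D.app d660 (D.app d661 (d662))))))))))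

theorem e26 : nilB (enumO 14 4503599627370496 11 10 9 47769 p26) = true := by decide +kernel

/-- The canonical configurations below a prefix. -/
noncomputable def p27 : D := D.app d663 (D.app d664 (D.app d665 (D.app d666 (d667))))

theorem e27 : nilB (enumO 14 4503599627370496 11 10 10 47770 p27) = true := by decide +kernel

end Pool.Agent.TH688.FA
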