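import Pool.Agent.TH688.FA.Nil
import Pool.Agent.TH688.FA.C222
import Pool.Agent.TH688.FA.C223
import Pool.Agent.TH688.FA.C224
import Pool.Agent.TH688.FA.C225
import Pool.Agent.TH688.FA.C226
import Pool.Agent.TH688.FA.C227
import Pool.Agent.TH688.FA.C228
import Pool.Agent.TH688.FA.C229
import Pool.Agent.TH688.FA.C230

/-! # The enumeration below some prefixes (generated) -/

namespace Pool.Agent.TH688.FA

open Pool.Agent.W664.Fill

/-- The canonical configurations below a prefix. -/
noncomputable def p28 : D := D.app d668 (D.app d669 (D.app d670 (D.app d671 (D.app d672 (D.app d673 (D.app d674 (D.app d675 (D.app d676 (D.app d677 (d678))))))))))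

theorem e28 : nilB (enumO 14 4503599627370496 11 10 9 47785 p28) = true := by decide +kernel

/-- The canonical configurations below a prefix. -/
noncomputable def p29 : D := D.app d679 (D.app d680 (D.app d681 (D.app d682 (d683))))

theorem e29 : nilB (enumO 14 4503599627370496 11 10 10 47786 p29) = true := by decide +kernel

/-- The canonical configurations below a prefix. -/
noncomputable def p30 : D := D.app d684 (d685)

theorem e30 : nilB (enumO 14 4503599627370496 11 10 11 47787 p30) = true := by decide +kernel

/-- The canonical configurations below a prefix. -/
noncomputable def p31 : D := D.app d686 (D.app d687 (D.app d688 (D.app d689 (d690))))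

theorem e31 : nilB (enumO 14 4503599627370496 11 11 11 2987 p31) = true := by decide +kernel

end Pool.Agent.TH688.FA
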