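import Pool.Agent.TH688.FA.Nil
import Pool.Agent.TH688.FA.C230
import Pool.Agent.TH688.FA.C231
import Pool.Agent.TH688.FA.C232
import Pool.Agent.TH688.FA.C233
import Pool.Agent.TH688.FA.C234
import Pool.Agent.TH688.FA.C235
import Pool.Agent.TH688.FA.C236
import Pool.Agent.TH688.FA.C237
import Pool.Agent.TH688.FA.C238

/-! # The enumeration below some prefixes (generated) -/

namespace Pool.Agent.TH688.FA

open Pool.Agent.W664.Fill

/-- The canonical configurations below a prefix. -/
noncomputable def p32 : D := D.app d691 (D.app d692 (D.app d693 (D.app d694 (D.app d695 (D.app d696 (D.app d697 (D.app d698 (D.app d699 (D.app d700 (D.app d701 (d702)))))))))))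

theorem e32 : nilB (enumO 14 4503599627370496 11 10 9 48041 p32) = true := by decide +kernel

/-- The canonical configurations below a prefix. -/
noncomputable def p33 : D := D.app d703 (D.app d704 (D.app d705 (D.app d706 (D.app d707 (d708)))))

theorem e33 : nilB (enumO 14 4503599627370496 11 10 10 48042 p33) = true := by decide +kernel

/-- The canonical configurations below a prefix. -/
noncomputable def p34 : D := D.app d709 (d710)

theorem e34 : nilB (enumO 14 4503599627370496 11 10 11 48043 p34) = true := by decide +kernel

/-- The canonical configurations below a prefix. -/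
noncomputable def p35 : D := D.app d711 (D.app d712 (D.app d713 (D.app d714 (D.app d715 (D.app d716 (d717))))))

theorem e35 : nilB (enumO 14 4503599627370496 11 11 11 3003 p35) = true := by decide +kernel

end Pool.Agent.TH688.FA
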