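import Pool.Agent.TH688.FA.Nil
import Pool.Agent.TH688.FA.C239
import Pool.Agent.TH688.FA.C240
import Pool.Agent.TH688.FA.C241

/-! # The enumeration below some prefixes (generated) -/

namespace Pool.Agent.TH688.FA

open Pool.Agent.W664.Fill

/-- The canonical configurations below a prefix. -/
noncomputable def p36 : D := D.app d718 (D.app d719 (D.app d720 (D.app d721 (d722))))

theorem e36 : nilB (enumO 14 4503599627370496 12 10 9 52137 p36) = true := by decide +kernel

/-- The canonical configurations below a prefix. -/
noncomputable def p37 : D := D.app d723 (d724)

theorem e37 : nilB (enumO 14 4503599627370496 12 10 10 52138 p37) = true := by decide +kernel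

/-- The canonical configurations below a prefix. -/
noncomputable def p38 : D := d725

theorem e38 : nilB (enumO 14 4503599627370496 12 10 11 52139 p38) = true := by decide +kernel

end Pool.Agent.TH688.FA
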