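import Pool.Agent.TH688.FA.Split
import Pool.Agent.TH688.FA.E0
import Pool.Agent.TH688.FA.E1
import Pool.Agent.TH688.FA.E2
import Pool.Agent.TH688.FA.E3
import Pool.Agent.TH688.FA.E4
import Pool.Agent.TH688.FA.E5
import Pool.Agent.TH688.FA.E6
import Pool.Agent.TH688.FA.E7
import Pool.Agent.TH688.FA.E8
import Pool.Agent.TH688.FA.E9
import Pool.Agent.TH688.FA.E10
import Pool.Agent.TH688.FA.E11
import Pool.Agent.TH688.FA.E12
import Pool.Agent.TH688.FA.E13
import Pool.Agent.TH688.FA.E14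
import Pool.Agent.TH688.FA.E15
import Pool.Agent.TH688.FA.E16
import Pool.Agent.TH688.FA.E17

/-! # Completeness and correctness of the certificates for `N = 14` (generated) -/

set_option autoImplicit false

namespace Pool.Agent.TH688.FA

open Pool.Agent.W664.Fill

/-- The enumeration is complete when it consumes the list exactly. -/
lemma compl_of (n2 B : ℕ) (d : D) (hB : Nat.pow 16 (Nat.sub n2 1) = B)
    (h : enumM n2 B n2 d = O.some D.nil) : complB n2 d = true := by
  have h2 : complB n2 d = O.rec (motive := fun _ => Bool) false (fun _ => true)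
    (enumM n2 (Nat.pow 16 (Nat.sub n2 1)) n2 d) := rfl
  rw [h2, hB, h]

theorem f0 : enumO 14 4503599627370496 7 13 7 7 p0 = O.some D.nil := nilB_spec e0

theorem o0 : Ok P 400000 p0 := Ok.of_chk t0

theorem f1 : enumO 14 4503599627370496 8 12 7 135 p1 = O.some D.nil := nilB_spec e1

theorem o1 : Ok P 400000 p1 := Ok.app (Ok.of_chk t1) (Ok.app (Ok.of_chk t2) (Ok.app (Ok.of_chk t3) (Ok.app (Ok.of_chk t4) (Ok.of_chk t5))))

theorem f2 : enumO 14 4503599627370496 8 12 8 136 p2 = O.some D.nil := nilB_spec e2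

theorem o2 : Ok P 400000 p2 := Ok.app (Ok.of_chk t6) (Ok.app (Ok.of_chk t7) (Ok.app (Ok.of_chk t8) (Ok.app (Ok.of_chk t9) (Ok.app (Ok.of_chk t10) (Ok.app (Ok.of_chk t11) (Ok.app (Ok.of_chk t12) (Ok.app (Ok.of_chk t13) (Ok.app (Ok.of_chk t14) (Ok.app (Ok.of_chk t15) (Ok.app (Ok.of_chk t16) (Ok.app (Ok.of_chk t17) (Ok.app (Ok.of_chk t18) (Ok.app (Ok.of_chk t19) (Ok.app (Ok.of_chk t20) (Ok.app (Ok.of_chk t21) (Ok.app (Ok.of_chk t22) (Ok.app (Ok.of_chk t23) (Ok.app (Ok.of_chk t24) (Ok.app (Ok.of_chk t25) (Ok.app (Ok.of_chk t26) (Ok.app (Ok.of_chk t27) (Ok.app (Ok.of_chk t28) (Ok.app (Ok.of_chk t29) (Ok.app (Ok.of_chk t30) (Ok.app (Ok.of_chk t31) (Ok.app (Ok.of_chk t32) (Ok.app (Ok.of_chk t33) (Ok.app (Ok.of_chk t34) (Ok.app (Ok.of_chk t35) (Ok.app (Ok.of_chk t36) (Ok.app (Ok.of_chk t37) (Ok.app (Ok.of_chk t38) (Ok.app (Ok.of_chk t39) (Ok.app (Ok.of_chk t40) (Ok.app (Ok.of_chk t41) (Ok.app (Ok.of_chk t42) (Ok.app (Ok.of_chk t43) (Ok.app (Ok.of_chk t44)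 (Ok.app (Ok.of_chk t45) (Ok.app (Ok.of_chk t46) (Ok.app (Ok.of_chk t47) (Ok.app (Ok.of_chk t48) (Ok.app (Ok.of_chk t49) (Ok.app (Ok.of_chk t50) (Ok.app (Ok.of_chk t51) (Ok.app (Ok.of_chk t52) (Ok.app (Ok.of_chk t53) (Ok.app (Ok.of_chk t54) (Ok.app (Ok.of_chk t55) (Ok.app (Ok.of_chk t56) (Ok.app (Ok.of_chk t57) (Ok.app (Ok.of_chk t58) (Ok.app (Ok.of_chk t59) (Ok.app (Ok.of_chk t60) (Ok.app (Ok.of_chk t61) (Ok.app (Ok.of_chk t62) (Ok.app (Ok.of_chk t63) (Ok.app (Ok.of_chk t64) (Ok.app (Ok.of_chk t65) (Ok.app (Ok.of_chk t66) (Ok.app (Ok.of_chk t67) (Ok.app (Ok.of_chk t68) (Ok.of_chk t69)))))))))))))))))))))))))))))))))))))))))))))))))))))))))))))))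

theorem f3 : enumO 14 4503599627370496 9 10 6 39030 p3 = O.some D.nil := nilB_spec e3

theorem o3 : Ok P 400000 p3 := Ok.app (Ok.of_chk t70) (Ok.app (Ok.of_chk t71) (Ok.app (Ok.of_chk t72) (Ok.app (Ok.of_chk t73) (Ok.app (Ok.of_chk t74) (Ok.app (Ok.of_chk t75) (Ok.app (Ok.of_chk t76) (Ok.app (Ok.of_chk t77) (Ok.app (Ok.of_chk t78) (Ok.app (Ok.of_chk t79) (Ok.app (Ok.of_chk t80) (Ok.app (Ok.of_chk t81) (Ok.app (Ok.of_chk t82) (Ok.app (Ok.of_chk t83) (Ok.of_chk t84))))))))))))))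

theorem f4 : enumO 14 4503599627370496 9 10 7 39031 p4 = O.some D.nil := nilB_spec e4

theorem o4 : Ok P 400000 p4 := Ok.app (Ok.of_chk t85) (Ok.app (Ok.of_chk t86) (Ok.app (Ok.of_chk t87) (Ok.app (Ok.of_chk t88) (Ok.app (Ok.of_chk t89) (Ok.app (Ok.of_chk t90) (Ok.app (Ok.of_chk t91) (Ok.app (Ok.of_chk t92) (Ok.app (Ok.of_chk t93) (Ok.app (Ok.of_chk t94) (Ok.app (Ok.of_chk t95) (Ok.app (Ok.of_chk t96) (Ok.app (Ok.of_chk t97) (Ok.app (Ok.of_chk t98) (Ok.app (Ok.of_chk t99) (Ok.app (Ok.of_chk t100) (Ok.app (Ok.of_chk t101) (Ok.app (Ok.of_chk t102) (Ok.app (Ok.of_chk t103) (Ok.app (Ok.of_chk t104) (Ok.app (Ok.of_chk t105) (Ok.app (Ok.of_chk t106) (Ok.of_chk t107))))))))))))))))))))))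

theorem f5 : enumO 14 4503599627370496 9 10 8 39032 p5 = O.some D.nil := nilB_spec e5

theorem o5 : Ok P 400000 p5 := Ok.app (Ok.of_chk t108) (Ok.app (Ok.of_chk t109) (Ok.app (Ok.of_chk t110) (Ok.app (Ok.of_chk t111) (Ok.app (Ok.of_chk t112) (Ok.app (Ok.of_chk t113) (Ok.app (Ok.of_chk t114) (Ok.app (Ok.of_chk t115) (Ok.app (Ok.of_chk t116) (Ok.app (Ok.of_chk t117) (Ok.app (Ok.of_chk t118) (Ok.app (Ok.of_chk t119) (Ok.app (Ok.of_chk t120) (Ok.app (Ok.of_chk t121) (Ok.app (Ok.of_chk t122) (Ok.app (Ok.of_chk t123) (Ok.app (Ok.of_chk t124) (Ok.app (Ok.of_chk t125) (Ok.of_chk t126))))))))))))))))))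

theorem f6 : enumO 14 4503599627370496 9 10 7 39047 p6 = O.some D.nil := nilB_spec e6

theorem o6 : Ok P 400000 p6 := Ok.app (Ok.of_chk t127) (Ok.app (Ok.of_chk t128) (Ok.app (Ok.of_chk t129) (Ok.app (Ok.of_chk t130) (Ok.app (Ok.of_chk t131) (Ok.app (Ok.of_chk t132) (Ok.app (Ok.of_chk t133) (Ok.app (Ok.of_chk t134) (Ok.app (Ok.of_chk t135) (Ok.app (Ok.of_chk t136) (Ok.app (Ok.of_chk t137) (Ok.app (Ok.of_chk t138) (Ok.app (Ok.of_chk t139) (Ok.app (Ok.of_chk t140) (Ok.app (Ok.of_chk t141) (Ok.app (Ok.of_chk t142) (Ok.app (Ok.of_chk t143) (Ok.app (Ok.of_chk t144) (Ok.app (Ok.of_chk t145) (Ok.app (Ok.of_chk t146) (Ok.app (Ok.of_chk t147) (Ok.app (Ok.of_chk t148) (Ok.app (Ok.of_chk t149) (Ok.app (Ok.of_chk t150) (Ok.app (Ok.of_chk t151) (Ok.app (Ok.of_chk t152) (Ok.app (Ok.of_chk t153) (Ok.of_chk t154)))))))))))))))))))))))))))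

theorem f7 : enumO 14 4503599627370496 9 10 8 39048 p7 = O.some D.nil := nilB_spec e7

theorem o7 : Ok P 400000 p7 := Ok.app (Ok.of_chk t155) (Ok.app (Ok.of_chk t156) (Ok.app (Ok.of_chk t157) (Ok.app (Ok.of_chk t158) (Ok.app (Ok.of_chk t159) (Ok.app (Ok.of_chk t160) (Ok.app (Ok.of_chk t161) (Ok.app (Ok.of_chk t162) (Ok.app (Ok.of_chk t163) (Ok.app (Ok.of_chk t164) (Ok.app (Ok.of_chk t165) (Ok.app (Ok.of_chk t166) (Ok.app (Ok.of_chk t167) (Ok.app (Ok.of_chk t168) (Ok.app (Ok.of_chk t169) (Ok.app (Ok.of_chk t170) (Ok.app (Ok.of_chk t171) (Ok.app (Ok.of_chk t172) (Ok.app (Ok.of_chk t173) (Ok.app (Ok.of_chk t174) (Ok.app (Ok.of_chk t175) (Ok.app (Ok.of_chk t176) (Ok.app (Ok.of_chk t177) (Ok.of_chk t178)))))))))))))))))))))))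

theorem f8 : enumO 14 4503599627370496 9 10 9 39049 p8 = O.some D.nil := nilB_spec e8

theorem o8 : Ok P 400000 p8 := Ok.app (Ok.of_chk t179) (Ok.app (Ok.of_chk t180) (Ok.app (Ok.of_chk t181) (Ok.app (Ok.of_chk t182) (Ok.app (Ok.of_chk t183) (Ok.app (Ok.of_chk t184) (Ok.app (Ok.of_chk t185) (Ok.app (Ok.of_chk t186) (Ok.of_chk t187))))))))

theorem f9 : enumO 14 4503599627370496 9 11 9 2441 p9 = O.some D.nil := nilB_spec e9

theorem o9 : Ok P 400000 p9 := Ok.app (Ok.of_chk t188) (Ok.app (Ok.of_chk t189) (Ok.app (Ok.of_chk t190) (Ok.app (Ok.of_chk t191) (Ok.app (Ok.of_chk t192) (Ok.app (Ok.of_chk t193) (Ok.app (Ok.of_chk t194) (Ok.app (Ok.of_chk t195) (Ok.app (Ok.of_chk t196) (Ok.app (Ok.of_chk t197) (Ok.app (Ok.of_chk t198) (Ok.app (Ok.of_chk t199) (Ok.app (Ok.of_chk t200) (Ok.app (Ok.of_chk t201) (Ok.app (Ok.of_chk t202) (Ok.app (Ok.of_chk t203) (Ok.app (Ok.of_chk t204) (Ok.app (Ok.of_chk t205) (Ok.app (Ok.of_chk t206) (Ok.app (Ok.of_chk t207) (Ok.app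 (Ok.of_chk t208) (Ok.app (Ok.of_chk t209) (Ok.app (Ok.of_chk t210) (Ok.app (Ok.of_chk t211) (Ok.app (Ok.of_chk t212) (Ok.app (Ok.of_chk t213) (Ok.app (Ok.of_chk t214) (Ok.of_chk t215)))))))))))))))))))))))))))

theorem f10 : enumO 14 4503599627370496 9 10 7 39303 p10 = O.some D.nil := nilB_spec e10

theorem o10 : Ok P 400000 p10 := Ok.app (Ok.of_chk t216) (Ok.app (Ok.of_chk t217) (Ok.app (Ok.of_chk t218) (Ok.app (Ok.of_chk t219) (Ok.app (Ok.of_chk t220) (Ok.app (Ok.of_chk t221) (Ok.app (Ok.of_chk t222) (Ok.app (Ok.of_chk t223) (Ok.app (Ok.of_chk t224) (Ok.app (Ok.of_chk t225) (Ok.app (Ok.of_chk t226) (Ok.app (Ok.of_chk t227) (Ok.app (Ok.of_chk t228) (Ok.app (Ok.of_chk t229) (Ok.app (Ok.of_chk t230) (Ok.app (Ok.of_chk t231) (Ok.app (Ok.of_chk t232) (Ok.app (Ok.of_chk t233) (Ok.app (Ok.of_chk t234) (Ok.app (Ok.of_chk t235) (Ok.app (Ok.of_chk t236) (Ok.app (Ok.of_chk t237) (Ok.app (Ok.of_chk t238) (Ok.app (Ok.of_chk t239) (Ok.app (Ok.of_chk t240) (Ok.app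 (Ok.of_chk t241) (Ok.app (Ok.of_chk t242) (Ok.app (Ok.of_chk t243) (Ok.app (Ok.of_chk t244) (Ok.app (Ok.of_chk t245) (Ok.app (Ok.of_chk t246) (Ok.app (Ok.of_chk t247) (Ok.app (Ok.of_chk t248) (Ok.app (Ok.of_chk t249) (Ok.app (Ok.of_chk t250) (Ok.app (Ok.of_chk t251) (Ok.app (Ok.of_chk t252) (Ok.app (Ok.of_chk t253) (Ok.app (Ok.of_chk t254) (Ok.app (Ok.of_chk t255) (Ok.app (Ok.of_chk t256) (Ok.app (Ok.of_chk t257) (Ok.of_chk t258))))))))))))))))))))))))))))))))))))))))))

theorem f11 : enumO 14 4503599627370496 9 10 8 39304 p11 = O.some D.nil := nilB_spec e11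

theorem o11 : Ok P 400000 p11 := Ok.app (Ok.of_chk t259) (Ok.app (Ok.of_chk t260) (Ok.app (Ok.of_chk t261) (Ok.app (Ok.of_chk t262) (Ok.app (Ok.of_chk t263) (Ok.app (Ok.of_chk t264) (Ok.app (Ok.of_chk t265) (Ok.app (Ok.of_chk t266) (Ok.app (Ok.of_chk t267) (Ok.app (Ok.of_chk t268) (Ok.app (Ok.of_chk t269) (Ok.app (Ok.of_chk t270) (Ok.app (Ok.of_chk t271) (Ok.app (Ok.of_chk t272) (Ok.app (Ok.of_chk t273) (Ok.app (Ok.of_chk t274) (Ok.app (Ok.of_chk t275) (Ok.app (Ok.of_chk t276) (Ok.app (Ok.of_chk t277) (Ok.app (Ok.of_chk t278) (Ok.app (Ok.of_chk t279) (Ok.app (Ok.of_chk t280) (Ok.app (Ok.of_chk t281) (Ok.app (Ok.of_chk t282) (Ok.app (Ok.of_chk t283) (Ok.app (Ok.of_chk t284) (Ok.app (Ok.of_chk t285) (Ok.app (Ok.of_chk t286) (Ok.app (Ok.of_chk t287) (Ok.app (Ok.of_chk t288) (Ok.app (Ok.of_chk t289) (Ok.app (Ok.of_chk t290) (Ok.app (Ok.of_chk t291) (Ok.app (Ok.of_chk t292) (Ok.app (Ok.of_chk t293) (Ok.app (Ok.of_chk t294) (Ok.app (Ok.of_chk t295) (Ok.of_chk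 t296)))))))))))))))))))))))))))))))))))))

theorem f12 : enumO 14 4503599627370496 9 10 9 39305 p12 = O.some D.nil := nilB_spec e12

theorem o12 : Ok P 400000 p12 := Ok.app (Ok.of_chk t297) (Ok.app (Ok.of_chk t298) (Ok.app (Ok.of_chk t299) (Ok.app (Ok.of_chk t300) (Ok.app (Ok.of_chk t301) (Ok.app (Ok.of_chk t302) (Ok.app (Ok.of_chk t303) (Ok.app (Ok.of_chk t304) (Ok.app (Ok.of_chk t305) (Ok.app (Ok.of_chk t306) (Ok.app (Ok.of_chk t307) (Ok.app (Ok.of_chk t308) (Ok.app (Ok.of_chk t309) (Ok.app (Ok.of_chk t310) (Ok.app (Ok.of_chk t311) (Ok.app (Ok.of_chk t312) (Ok.app (Ok.of_chk t313) (Ok.app (Ok.of_chk t314) (Ok.app (Ok.of_chk t315) (Ok.of_chk t316)))))))))))))))))))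

theorem f13 : enumO 14 4503599627370496 9 11 9 2457 p13 = O.some D.nil := nilB_spec e13

theorem o13 : Ok P 400000 p13 := Ok.app (Ok.of_chk t317) (Ok.app (Ok.of_chk t318) (Ok.app (Ok.of_chk t319) (Ok.app (Ok.of_chk t320) (Ok.app (Ok.of_chk t321) (Ok.app (Ok.of_chk t322) (Ok.app (Ok.of_chk t323) (Ok.app (Ok.of_chk t324) (Ok.app (Ok.of_chk t325) (Ok.app (Ok.of_chk t326) (Ok.app (Ok.of_chk t327) (Ok.app (Ok.of_chk t328) (Ok.app (Ok.of_chk t329) (Ok.app (Ok.of_chk t330) (Ok.app (Ok.of_chk t331) (Ok.app (Ok.of_chk t332) (Ok.app (Ok.of_chk t333) (Ok.app (Ok.of_chk t334) (Ok.app (Ok.of_chk t335) (Ok.app (Ok.of_chk t336) (Ok.app (Ok.of_chk t337) (Ok.app (Ok.of_chk t338) (Ok.app (Ok.of_chk t339) (Ok.app (Ok.of_chk t340) (Ok.app (Ok.of_chk t341) (Ok.app (Ok.of_chk t342) (Ok.app (Ok.of_chk t343) (Ok.app (Ok.of_chk t344) (Ok.app (Ok.of_chk t345) (Ok.app (Ok.of_chk t346) (Ok.app (Ok.of_chk t347) (Ok.app (Ok.of_chk t348) (Ok.app (Ok.of_chk t349) (Ok.app (Ok.of_chk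 t350) (Ok.app (Ok.of_chk t351) (Ok.app (Ok.of_chk t352) (Ok.app (Ok.of_chk t353) (Ok.app (Ok.of_chk t354) (Ok.app (Ok.of_chk t355) (Ok.app (Ok.of_chk t356) (Ok.app (Ok.of_chk t357) (Ok.app (Ok.of_chk t358) (Ok.app (Ok.of_chk t359) (Ok.app (Ok.of_chk t360) (Ok.app (Ok.of_chk t361) (Ok.app (Ok.of_chk t362) (Ok.app (Ok.of_chk t363) (Ok.app (Ok.of_chk t364) (Ok.app (Ok.of_chk t365) (Ok.app (Ok.of_chk t366) (Ok.app (Ok.of_chk t367) (Ok.app (Ok.of_chk t368) (Ok.app (Ok.of_chk t369) (Ok.app (Ok.of_chk t370) (Ok.app (Ok.of_chk t371) (Ok.app (Ok.of_chk t372) (Ok.app (Ok.of_chk t373) (Ok.app (Ok.of_chk t374) (Ok.app (Ok.of_chk t375) (Ok.app (Ok.of_chk t376) (Ok.app (Ok.of_chk t377) (Ok.app (Ok.of_chk t378) (Ok.app (Ok.of_chk t379) (Ok.app (Ok.of_chk t380) (Ok.app (Ok.of_chk t381) (Ok.app (Ok.of_chk t382) (Ok.app (Ok.of_chk t383) (Ok.app (Ok.of_chk t384) (Ok.of_chk t385))))))))))))))))))))))))))))))))))))))))))))))))))))))))))))))))))))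

theorem f14 : enumO 14 4503599627370496 10 10 7 43399 p14 = O.some D.nil := nilB_spec e14

theorem o14 : Ok P 400000 p14 := Ok.app (Ok.of_chk t386) (Ok.app (Ok.of_chk t387) (Ok.app (Ok.of_chk t388) (Ok.app (Ok.of_chk t389) (Ok.app (Ok.of_chk t390) (Ok.app (Ok.of_chk t391) (Ok.app (Ok.of_chk t392) (Ok.app (Ok.of_chk t393) (Ok.app (Ok.of_chk t394) (Ok.app (Ok.of_chk t395) (Ok.app (Ok.of_chk t396) (Ok.app (Ok.of_chk t397) (Ok.app (Ok.of_chk t398) (Ok.app (Ok.of_chk t399) (Ok.app (Ok.of_chk t400) (Ok.app (Ok.of_chk t401) (Ok.app (Ok.of_chk t402) (Ok.app (Ok.of_chk t403) (Ok.app (Ok.of_chk t404) (Ok.app (Ok.of_chk t405) (Ok.app (Ok.of_chk t406) (Ok.app (Ok.of_chk t407) (Ok.app (Ok.of_chk t408) (Ok.app (Ok.of_chk t409) (Ok.app (Ok.of_chk t410) (Ok.app (Ok.of_chk t411) (Ok.app (Ok.of_chk t412) (Ok.app (Ok.of_chk t413) (Ok.app (Ok.of_chk t414) (Ok.app (Ok.of_chk t415) (Ok.app (Ok.of_chk t416) (Ok.app (Ok.of_chk t417) (Ok.of_chk t418))))))))))))))))))))))))))))))))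

theorem f15 : enumO 14 4503599627370496 10 10 8 43400 p15 = O.some D.nil := nilB_spec e15

theorem o15 : Ok P 400000 p15 := Ok.app (Ok.of_chk t419) (Ok.app (Ok.of_chk t420) (Ok.app (Ok.of_chk t421) (Ok.app (Ok.of_chk t422) (Ok.app (Ok.of_chk t423) (Ok.app (Ok.of_chk t424) (Ok.app (Ok.of_chk t425) (Ok.app (Ok.of_chk t426) (Ok.app (Ok.of_chk t427) (Ok.app (Ok.of_chk t428) (Ok.app (Ok.of_chk t429) (Ok.app (Ok.of_chk t430) (Ok.app (Ok.of_chk t431) (Ok.app (Ok.of_chk t432) (Ok.app (Ok.of_chk t433) (Ok.app (Ok.of_chk t434) (Ok.app (Ok.of_chk t435) (Ok.app (Ok.of_chk t436) (Ok.app (Ok.of_chk t437) (Ok.app (Ok.of_chk t438) (Ok.app (Ok.of_chk t439) (Ok.app (Ok.of_chk t440) (Ok.app (Ok.of_chk t441) (Ok.app (Ok.of_chk t442) (Ok.app (Ok.of_chk t443) (Ok.app (Ok.of_chk t444) (Ok.of_chk t445))))))))))))))))))))))))))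

theorem f16 : enumO 14 4503599627370496 10 10 9 43401 p16 = O.some D.nil := nilB_spec e16

theorem o16 : Ok P 400000 p16 := Ok.app (Ok.of_chk t446) (Ok.app (Ok.of_chk t447) (Ok.app (Ok.of_chk t448) (Ok.app (Ok.of_chk t449) (Ok.app (Ok.of_chk t450) (Ok.app (Ok.of_chk t451) (Ok.app (Ok.of_chk t452) (Ok.app (Ok.of_chk t453) (Ok.app (Ok.of_chk t454) (Ok.app (Ok.of_chk t455) (Ok.app (Ok.of_chk t456) (Ok.app (Ok.of_chk t457) (Ok.app (Ok.of_chk t458) (Ok.app (Ok.of_chk t459) (Ok.app (Ok.of_chk t460) (Ok.of_chk t461)))))))))))))))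

theorem f17 : enumO 14 4503599627370496 10 10 8 43416 p17 = O.some D.nil := nilB_spec e17

theorem o17 : Ok P 400000 p17 := Ok.app (Ok.of_chk t462) (Ok.app (Ok.of_chk t463) (Ok.app (Ok.of_chk t464) (Ok.app (Ok.of_chk t465) (Ok.app (Ok.of_chk t466) (Ok.app (Ok.of_chk t467) (Ok.app (Ok.of_chk t468) (Ok.app (Ok.of_chk t469) (Ok.app (Ok.of_chk t470) (Ok.app (Ok.of_chk t471) (Ok.app (Ok.of_chk t472) (Ok.app (Ok.of_chk t473) (Ok.app (Ok.of_chk t474) (Ok.app (Ok.of_chk t475) (Ok.app (Ok.of_chk t476) (Ok.app (Ok.of_chk t477) (Ok.app (Ok.of_chk t478) (Ok.app (Ok.of_chk t479) (Ok.app (Ok.of_chk t480) (Ok.app (Ok.of_chk t481) (Ok.app (Ok.of_chk t482) (Ok.app (Ok.of_chk t483) (Ok.app (Ok.of_chk t484) (Ok.app (Ok.of_chk t485) (Ok.app (Ok.of_chk t486) (Ok.app (Ok.of_chk t487) (Ok.app (Ok.of_chk t488) (Ok.of_chk t489)))))))))))))))))))))))))))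

theorem f18 : enumO 14 4503599627370496 10 10 9 43417 p18 = O.some D.nil := nilB_spec e18

theorem o18 : Ok P 400000 p18 := Ok.app (Ok.of_chk t490) (Ok.app (Ok.of_chk t491) (Ok.app (Ok.of_chk t492) (Ok.app (Ok.of_chk t493) (Ok.app (Ok.of_chk t494) (Ok.app (Ok.of_chk t495) (Ok.app (Ok.of_chk t496) (Ok.app (Ok.of_chk t497) (Ok.app (Ok.of_chk t498) (Ok.app (Ok.of_chk t499) (Ok.app (Ok.of_chk t500) (Ok.app (Ok.of_chk t501) (Ok.app (Ok.of_chk t502) (Ok.app (Ok.of_chk t503) (Ok.app (Ok.of_chk t504) (Ok.app (Ok.of_chk t505) (Ok.app (Ok.of_chk t506) (Ok.of_chk t507)))))))))))))))))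

theorem f19 : enumO 14 4503599627370496 10 10 10 43418 p19 = O.some D.nil := nilB_spec e19

theorem o19 : Ok P 400000 p19 := Ok.app (Ok.of_chk t508) (Ok.app (Ok.of_chk t509) (Ok.app (Ok.of_chk t510) (Ok.app (Ok.of_chk t511) (Ok.app (Ok.of_chk t512) (Ok.of_chk t513)))))

theorem f20 : enumO 14 4503599627370496 10 11 10 2714 p20 = O.some D.nil := nilB_spec e20

theorem o20 : Ok P 400000 p20 := Ok.app (Ok.of_chk t514) (Ok.app (Ok.of_chk t515) (Ok.app (Ok.of_chk t516) (Ok.app (Ok.of_chk t517) (Ok.app (Ok.of_chk t518) (Ok.app (Ok.of_chk t519) (Ok.app (Ok.of_chk t520) (Ok.app (Ok.of_chk t521) (Ok.app (Ok.of_chk t522) (Ok.app (Ok.of_chk t523) (Ok.app (Ok.of_chk t524) (Ok.app (Ok.of_chk t525) (Ok.app (Ok.of_chk t526) (Ok.app (Ok.of_chk t527) (Ok.app (Ok.of_chk t528) (Ok.app (Ok.of_chk t529) (Ok.app (Ok.of_chk t530) (Ok.app (Ok.of_chk t531) (Ok.of_chk t532))))))))))))))))))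

theorem f21 : enumO 14 4503599627370496 10 10 8 43672 p21 = O.some D.nil := nilB_spec e21

theorem o21 : Ok P 400000 p21 := Ok.app (Ok.of_chk t533) (Ok.app (Ok.of_chk t534) (Ok.app (Ok.of_chk t535) (Ok.app (Ok.of_chk t536) (Ok.app (Ok.of_chk t537) (Ok.app (Ok.of_chk t538) (Ok.app (Ok.of_chk t539) (Ok.app (Ok.of_chk t540) (Ok.app (Ok.of_chk t541) (Ok.app (Ok.of_chk t542) (Ok.app (Ok.of_chk t543) (Ok.app (Ok.of_chk t544) (Ok.app (Ok.of_chk t545) (Ok.app (Ok.of_chk t546) (Ok.app (Ok.of_chk t547) (Ok.app (Ok.of_chk t548) (Ok.app (Ok.of_chk t549) (Ok.app (Ok.of_chk t550) (Ok.app (Ok.of_chk t551) (Ok.app (Ok.of_chk t552) (Ok.app (Ok.of_chk t553) (Ok.app (Ok.of_chk t554) (Ok.app (Ok.of_chk t555) (Ok.app (Ok.of_chk t556) (Ok.app (Ok.of_chk t557) (Ok.app (Ok.of_chk t558) (Ok.app (Ok.of_chk t559) (Ok.app (Ok.of_chk t560) (Ok.app (Ok.of_chk t561) (Ok.app (Ok.of_chk t562) (Ok.app (Ok.of_chk t563) (Ok.app (Ok.of_chk t564) (Ok.app (Ok.of_chk t565) (Ok.app (Ok.of_chk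 t566) (Ok.of_chk t567))))))))))))))))))))))))))))))))))

theorem f22 : enumO 14 4503599627370496 10 10 9 43673 p22 = O.some D.nil := nilB_spec e22

theorem o22 : Ok P 400000 p22 := Ok.app (Ok.of_chk t568) (Ok.app (Ok.of_chk t569) (Ok.app (Ok.of_chk t570) (Ok.app (Ok.of_chk t571) (Ok.app (Ok.of_chk t572) (Ok.app (Ok.of_chk t573) (Ok.app (Ok.of_chk t574) (Ok.app (Ok.of_chk t575) (Ok.app (Ok.of_chk t576) (Ok.app (Ok.of_chk t577) (Ok.app (Ok.of_chk t578) (Ok.app (Ok.of_chk t579) (Ok.app (Ok.of_chk t580) (Ok.app (Ok.of_chk t581) (Ok.app (Ok.of_chk t582) (Ok.app (Ok.of_chk t583) (Ok.app (Ok.of_chk t584) (Ok.app (Ok.of_chk t585) (Ok.app (Ok.of_chk t586) (Ok.app (Ok.of_chk t587) (Ok.app (Ok.of_chk t588) (Ok.of_chk t589)))))))))))))))))))))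

theorem f23 : enumO 14 4503599627370496 10 10 10 43674 p23 = O.some D.nil := nilB_spec e23

theorem o23 : Ok P 400000 p23 := Ok.app (Ok.of_chk t590) (Ok.app (Ok.of_chk t591) (Ok.app (Ok.of_chk t592) (Ok.app (Ok.of_chk t593) (Ok.app (Ok.of_chk t594) (Ok.app (Ok.of_chk t595) (Ok.app (Ok.of_chk t596) (Ok.app (Ok.of_chk t597) (Ok.app (Ok.of_chk t598) (Ok.of_chk t599)))))))))

theorem f24 : enumO 14 4503599627370496 10 11 10 2730 p24 = O.some D.nil := nilB_spec e24

theorem o24 : Ok P 400000 p24 := Ok.app (Ok.of_chk t600) (Ok.app (Ok.of_chk t601) (Ok.app (Ok.of_chk t602) (Ok.app (Ok.of_chk t603) (Ok.app (Ok.of_chk t604) (Ok.app (Ok.of_chk t605) (Ok.app (Ok.of_chk t606) (Ok.app (Ok.of_chk t607) (Ok.app (Ok.of_chk t608) (Ok.app (Ok.of_chk t609) (Ok.app (Ok.of_chk t610) (Ok.app (Ok.of_chk t611) (Ok.app (Ok.of_chk t612) (Ok.app (Ok.of_chk t613) (Ok.app (Ok.of_chk t614) (Ok.app (Ok.of_chk t615) (Ok.app (Ok.of_chk t616) (Ok.app (Ok.of_chk t617) (Ok.app (Ok.of_chk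 t618) (Ok.app (Ok.of_chk t619) (Ok.app (Ok.of_chk t620) (Ok.app (Ok.of_chk t621) (Ok.app (Ok.of_chk t622) (Ok.app (Ok.of_chk t623) (Ok.app (Ok.of_chk t624) (Ok.app (Ok.of_chk t625) (Ok.app (Ok.of_chk t626) (Ok.app (Ok.of_chk t627) (Ok.app (Ok.of_chk t628) (Ok.app (Ok.of_chk t629) (Ok.app (Ok.of_chk t630) (Ok.app (Ok.of_chk t631) (Ok.of_chk t632))))))))))))))))))))))))))))))))

theorem f25 : enumO 14 4503599627370496 11 10 8 47768 p25 = O.some D.nil := nilB_spec e25

theorem o25 : Ok P 400000 p25 := Ok.app (Ok.of_chk t633) (Ok.app (Ok.of_chk t634) (Ok.app (Ok.of_chk t635) (Ok.app (Ok.of_chk t636) (Ok.app (Ok.of_chk t637) (Ok.app (Ok.of_chk t638) (Ok.app (Ok.of_chk t639) (Ok.app (Ok.of_chk t640) (Ok.app (Ok.of_chk t641) (Ok.app (Ok.of_chk t642) (Ok.app (Ok.of_chk t643) (Ok.app (Ok.of_chk t644) (Ok.app (Ok.of_chk t645) (Ok.app (Ok.of_chk t646) (Ok.app (Ok.of_chk t647) (Ok.app (Ok.of_chk t648) (Ok.app (Ok.of_chk t649) (Ok.app (Ok.of_chk t650) (Ok.of_chk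 t651))))))))))))))))))

theorem f26 : enumO 14 4503599627370496 11 10 9 47769 p26 = O.some D.nil := nilB_spec e26

theorem o26 : Ok P 400000 p26 := Ok.app (Ok.of_chk t652) (Ok.app (Ok.of_chk t653) (Ok.app (Ok.of_chk t654) (Ok.app (Ok.of_chk t655) (Ok.app (Ok.of_chk t656) (Ok.app (Ok.of_chk t657) (Ok.app (Ok.of_chk t658) (Ok.app (Ok.of_chk t659) (Ok.app (Ok.of_chk t660) (Ok.app (Ok.of_chk t661) (Ok.of_chk t662))))))))))

theorem f27 : enumO 14 4503599627370496 11 10 10 47770 p27 = O.some D.nil := nilB_spec e27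

theorem o27 : Ok P 400000 p27 := Ok.app (Ok.of_chk t663) (Ok.app (Ok.of_chk t664) (Ok.app (Ok.of_chk t665) (Ok.app (Ok.of_chk t666) (Ok.of_chk t667))))

theorem f28 : enumO 14 4503599627370496 11 10 9 47785 p28 = O.some D.nil := nilB_spec e28

theorem o28 : Ok P 400000 p28 := Ok.app (Ok.of_chk t668) (Ok.app (Ok.of_chk t669) (Ok.app (Ok.of_chk t670) (Ok.app (Ok.of_chk t671) (Ok.app (Ok.of_chk t672) (Ok.app (Ok.of_chk t673) (Ok.app (Ok.of_chk t674) (Ok.app (Ok.of_chk t675) (Ok.app (Ok.of_chk t676) (Ok.app (Ok.of_chk t677) (Ok.of_chk t678))))))))))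

theorem f29 : enumO 14 4503599627370496 11 10 10 47786 p29 = O.some D.nil := nilB_spec e29

theorem o29 : Ok P 400000 p29 := Ok.app (Ok.of_chk t679) (Ok.app (Ok.of_chk t680) (Ok.app (Ok.of_chk t681) (Ok.app (Ok.of_chk t682) (Ok.of_chk t683))))

theorem f30 : enumO 14 4503599627370496 11 10 11 47787 p30 = O.some D.nil := nilB_spec e30

theorem o30 : Ok P 400000 p30 := Ok.app (Ok.of_chk t684) (Ok.of_chk t685)

theorem f31 : enumO 14 4503599627370496 11 11 11 2987 p31 = O.some D.nil := nilB_spec e31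

theorem o31 : Ok P 400000 p31 := Ok.app (Ok.of_chk t686) (Ok.app (Ok.of_chk t687) (Ok.app (Ok.of_chk t688) (Ok.app (Ok.of_chk t689) (Ok.of_chk t690))))

theorem f32 : enumO 14 4503599627370496 11 10 9 48041 p32 = O.some D.nil := nilB_spec e32

theorem o32 : Ok P 400000 p32 := Ok.app (Ok.of_chk t691) (Ok.app (Ok.of_chk t692) (Ok.app (Ok.of_chk t693) (Ok.app (Ok.of_chk t694) (Ok.app (Ok.of_chk t695) (Ok.app (Ok.of_chk t696) (Ok.app (Ok.of_chk t697) (Ok.app (Ok.of_chk t698) (Ok.app (Ok.of_chk t699) (Ok.app (Ok.of_chk t700) (Ok.app (Ok.of_chk t701) (Ok.of_chk t702)))))))))))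

theorem f33 : enumO 14 4503599627370496 11 10 10 48042 p33 = O.some D.nil := nilB_spec e33

theorem o33 : Ok P 400000 p33 := Ok.app (Ok.of_chk t703) (Ok.app (Ok.of_chk t704) (Ok.app (Ok.of_chk t705) (Ok.app (Ok.of_chk t706) (Ok.app (Ok.of_chk t707) (Ok.of_chk t708)))))

theorem f34 : enumO 14 4503599627370496 11 10 11 48043 p34 = O.some D.nil := nilB_spec e34

theorem o34 : Ok P 400000 p34 := Ok.app (Ok.of_chk t709) (Ok.of_chk t710)

theorem f35 : enumO 14 4503599627370496 11 11 11 3003 p35 = O.some D.nil := nilB_spec e35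

theorem o35 : Ok P 400000 p35 := Ok.app (Ok.of_chk t711) (Ok.app (Ok.of_chk t712) (Ok.app (Ok.of_chk t713) (Ok.app (Ok.of_chk t714) (Ok.app (Ok.of_chk t715) (Ok.app (Ok.of_chk t716) (Ok.of_chk t717))))))

theorem f36 : enumO 14 4503599627370496 12 10 9 52137 p36 = O.some D.nil := nilB_spec e36

theorem o36 : Ok P 400000 p36 := Ok.app (Ok.of_chk t718) (Ok.app (Ok.of_chk t719) (Ok.app (Ok.of_chk t720) (Ok.app (Ok.of_chk t721) (Ok.of_chk t722))))

theorem f37 : enumO 14 4503599627370496 12 10 10 52138 p37 = O.some D.nil := nilB_spec e37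

theorem o37 : Ok P 400000 p37 := Ok.app (Ok.of_chk t723) (Ok.of_chk t724)

theorem f38 : enumO 14 4503599627370496 12 10 11 52139 p38 = O.some D.nil := nilB_spec e38

theorem o38 : Ok P 400000 p38 := Ok.of_chk t725

theorem f39 : enumO 14 4503599627370496 12 10 10 52154 p39 = O.some D.nil := nilB_spec e39

theorem o39 : Ok P 400000 p39 := Ok.app (Ok.of_chk t726) (Ok.of_chk t727)

theorem f40 : enumO 14 4503599627370496 12 10 11 52155 p40 = O.some D.nil := nilB_spec e40

theorem o40 : Ok P 400000 p40 := Ok.of_chk t728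

theorem f41 : enumO 14 4503599627370496 12 10 12 52156 p41 = O.some D.nil := nilB_spec e41

theorem o41 : Ok P 400000 p41 := Ok.of_chk t729

theorem f42 : enumO 14 4503599627370496 12 11 12 3260 p42 = O.some D.nil := nilB_spec e42

theorem o42 : Ok P 400000 p42 := Ok.of_chk t730

theorem f43 : enumO 14 4503599627370496 12 10 10 52410 p43 = O.some D.nil := nilB_spec e43

theorem o43 : Ok P 400000 p43 := Ok.app (Ok.of_chk t731) (Ok.of_chk t732)

theorem f44 : enumO 14 4503599627370496 12 10 11 52411 p44 = O.some D.nil := nilB_spec e44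

theorem o44 : Ok P 400000 p44 := Ok.of_chk t733

theorem f45 : enumO 14 4503599627370496 12 10 12 52412 p45 = O.some D.nil := nilB_spec e45

theorem o45 : Ok P 400000 p45 := Ok.of_chk t734

theorem f46 : enumO 14 4503599627370496 12 11 12 3276 p46 = O.some D.nil := nilB_spec e46

theorem o46 : Ok P 400000 p46 := Ok.of_chk t735

theorem f47 : enumO 14 4503599627370496 13 10 10 56506 p47 = O.some D.nil := nilB_spec e47

theorem o47 : Ok P 400000 p47 := Ok.of_chk t736

theorem f48 : enumO 14 4503599627370496 13 10 11 56507 p48 = O.some D.nil := nilB_spec e48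

theorem o48 : Ok P 400000 p48 := Ok.of_chk t737

theorem f49 : enumO 14 4503599627370496 13 10 12 56508 p49 = O.some D.nil := nilB_spec e49

theorem o49 : Ok P 400000 p49 := Ok.of_chk t738

theorem f50 : enumO 14 4503599627370496 13 10 11 56523 p50 = O.some D.nil := nilB_spec e50

theorem o50 : Ok P 400000 p50 := Ok.of_chk t739

theorem f51 : enumO 14 4503599627370496 13 10 12 56524 p51 = O.some D.nil := nilB_spec e51

theorem o51 : Ok P 400000 p51 := Ok.of_chk t740

theorem f52 : enumO 14 4503599627370496 13 10 13 56525 p52 = O.some D.nil := nilB_spec e52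

theorem o52 : Ok P 400000 p52 := Ok.nil

theorem f53 : enumO 14 4503599627370496 13 11 13 3533 p53 = O.some D.nil := nilB_spec e53

theorem o53 : Ok P 400000 p53 := Ok.of_chk t741

theorem f54 : enumO 14 4503599627370496 13 10 11 56779 p54 = O.some D.nil := nilB_spec e54

theorem o54 : Ok P 400000 p54 := Ok.of_chk t742

theorem f55 : enumO 14 4503599627370496 13 10 12 56780 p55 = O.some D.nil := nilB_spec e55

theorem o55 : Ok P 400000 p55 := Ok.of_chk t743

theorem f56 : enumO 14 4503599627370496 13 10 13 56781 p56 = O.some D.nil := nilB_spec e56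

theorem o56 : Ok P 400000 p56 := Ok.nil

theorem f57 : enumO 14 4503599627370496 13 11 13 3549 p57 = O.some D.nil := nilB_spec e57

theorem o57 : Ok P 400000 p57 := Ok.of_chk t744

theorem f58 : enumO 14 4503599627370496 14 10 11 60875 p58 = O.some D.nil := nilB_spec e58

theorem o58 : Ok P 400000 p58 := Ok.of_chk t745

theorem f59 : enumO 14 4503599627370496 14 10 12 60876 p59 = O.some D.nil := nilB_spec e59

theorem o59 : Ok P 400000 p59 := Ok.nil

theorem f60 : enumO 14 4503599627370496 14 10 13 60877 p60 = O.some D.nil := nilB_spec e60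

theorem o60 : Ok P 400000 p60 := Ok.nil

theorem f61 : enumO 14 4503599627370496 14 10 12 60892 p61 = O.some D.nil := nilB_spec e61

theorem o61 : Ok P 400000 p61 := Ok.nil

theorem f62 : enumO 14 4503599627370496 14 10 13 60893 p62 = O.some D.nil := nilB_spec e62

theorem o62 : Ok P 400000 p62 := Ok.nil

theorem f63 : enumO 14 4503599627370496 14 10 14 60894 p63 = O.some D.nil := nilB_spec e63

theorem o63 : Ok P 400000 p63 := Ok.nil

theorem f64 : enumO 14 4503599627370496 14 11 14 3806 p64 = O.some D.nil := nilB_spec e64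

theorem o64 : Ok P 400000 p64 := Ok.nil

theorem f65 : enumO 14 4503599627370496 14 10 12 61148 p65 = O.some D.nil := nilB_spec e65

theorem o65 : Ok P 400000 p65 := Ok.nil

theorem f66 : enumO 14 4503599627370496 14 10 13 61149 p66 = O.some D.nil := nilB_spec e66

theorem o66 : Ok P 400000 p66 := Ok.nil

theorem f67 : enumO 14 4503599627370496 14 10 14 61150 p67 = O.some D.nil := nilB_spec e67

theorem o67 : Ok P 400000 p67 := Ok.nil

theorem f68 : enumO 14 4503599627370496 14 11 14 3822 p68 = O.some D.nil := nilB_spec e68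

theorem o68 : Ok P 400000 p68 := Ok.nil

/-- Configurations below a prefix. -/
noncomputable def n0 : D := D.app p1 (D.app p2 D.nil)

theorem g0 : enumO 14 4503599627370496 8 13 8 8 n0 = O.some D.nil :=
  split 14 4503599627370496 8 12 8 8 _ _ _ (by rw [if_pos (by norm_num)]; exact f1)
    f2 (by rw [if_neg (by norm_num)])

theorem q0 : Ok P 400000 n0 := Ok.app o1 (Ok.app o2 Ok.nil)

/-- Configurations below a prefix. -/
noncomputable def n1 : D := D.app p3 (D.app p4 p5)

theorem g1 : enumO 14 4503599627370496 9 11 7 2439 n1 = O.some D.nil :=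
  split 14 4503599627370496 9 10 7 2439 _ _ _ (by rw [if_pos (by norm_num)]; exact f3)
    f4 (by rw [if_pos (by norm_num)]; exact f5)

theorem q1 : Ok P 400000 n1 := Ok.app o3 (Ok.app o4 o5)

/-- Configurations below a prefix. -/
noncomputable def n2 : D := D.app p6 (D.app p7 p8)

theorem g2 : enumO 14 4503599627370496 9 11 8 2440 n2 = O.some D.nil :=
  split 14 4503599627370496 9 10 8 2440 _ _ _ (by rw [if_pos (by norm_num)]; exact f6)
    f7 (by rw [if_pos (by norm_num)]; exact f8)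

theorem q2 : Ok P 400000 n2 := Ok.app o6 (Ok.app o7 o8)

/-- Configurations below a prefix. -/
noncomputable def n3 : D := D.app n1 (D.app n2 p9)

theorem g3 : enumO 14 4503599627370496 9 12 8 152 n3 = O.some D.nil :=
  split 14 4503599627370496 9 11 8 152 _ _ _ (by rw [if_pos (by norm_num)]; exact g1)
    g2 (by rw [if_pos (by norm_num)]; exact f9)

theorem q3 : Ok P 400000 n3 := Ok.app q1 (Ok.app q2 o9)

/-- Configurations below a prefix. -/
noncomputable def n4 : D := D.app p10 (D.app p11 p12)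

theorem g4 : enumO 14 4503599627370496 9 11 8 2456 n4 = O.some D.nil :=
  split 14 4503599627370496 9 10 8 2456 _ _ _ (by rw [if_pos (by norm_num)]; exact f10)
    f11 (by rw [if_pos (by norm_num)]; exact f12)

theorem q4 : Ok P 400000 n4 := Ok.app o10 (Ok.app o11 o12)

/-- Configurations below a prefix. -/
noncomputable def n5 : D := D.app n4 (D.app p13 D.nil)

theorem g5 : enumO 14 4503599627370496 9 12 9 153 n5 = O.some D.nil :=
  split 14 4503599627370496 9 11 9 153 _ _ _ (by rw [if_pos (by norm_num)]; exact g4)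
    f13 (by rw [if_neg (by norm_num)])

theorem q5 : Ok P 400000 n5 := Ok.app q4 (Ok.app o13 Ok.nil)

/-- Configurations below a prefix. -/
noncomputable def n6 : D := D.app n3 (D.app n5 D.nil)

theorem g6 : enumO 14 4503599627370496 9 13 9 9 n6 = O.some D.nil :=
  split 14 4503599627370496 9 12 9 9 _ _ _ (by rw [if_pos (by norm_num)]; exact g3)
    g5 (by rw [if_neg (by norm_num)])

theorem q6 : Ok P 400000 n6 := Ok.app q3 (Ok.app q5 Ok.nil)

/-- Configurations below a prefix. -/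
noncomputable def n7 : D := D.app p14 (D.app p15 p16)

theorem g7 : enumO 14 4503599627370496 10 11 8 2712 n7 = O.some D.nil :=
  split 14 4503599627370496 10 10 8 2712 _ _ _ (by rw [if_pos (by norm_num)]; exact f14)
    f15 (by rw [if_pos (by norm_num)]; exact f16)

theorem q7 : Ok P 400000 n7 := Ok.app o14 (Ok.app o15 o16)

/-- Configurations below a prefix. -/
noncomputable def n8 : D := D.app p17 (D.app p18 p19)

theorem g8 : enumO 14 4503599627370496 10 11 9 2713 n8 = O.some D.nil :=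
  split 14 4503599627370496 10 10 9 2713 _ _ _ (by rw [if_pos (by norm_num)]; exact f17)
    f18 (by rw [if_pos (by norm_num)]; exact f19)

theorem q8 : Ok P 400000 n8 := Ok.app o17 (Ok.app o18 o19)

/-- Configurations below a prefix. -/
noncomputable def n9 : D := D.app n7 (D.app n8 p20)

theorem g9 : enumO 14 4503599627370496 10 12 9 169 n9 = O.some D.nil :=
  split 14 4503599627370496 10 11 9 169 _ _ _ (by rw [if_pos (by norm_num)]; exact g7)
    g8 (by rw [if_pos (by norm_num)]; exact f20)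

theorem q9 : Ok P 400000 n9 := Ok.app q7 (Ok.app q8 o20)

/-- Configurations below a prefix. -/
noncomputable def n10 : D := D.app p21 (D.app p22 p23)

theorem g10 : enumO 14 4503599627370496 10 11 9 2729 n10 = O.some D.nil :=
  split 14 4503599627370496 10 10 9 2729 _ _ _ (by rw [if_pos (by norm_num)]; exact f21)
    f22 (by rw [if_pos (by norm_num)]; exact f23)

theorem q10 : Ok P 400000 n10 := Ok.app o21 (Ok.app o22 o23)

/-- Configurations below a prefix. -/
noncomputable def n11 : D := D.app n10 (D.app p24 D.nil)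

theorem g11 : enumO 14 4503599627370496 10 12 10 170 n11 = O.some D.nil :=
  split 14 4503599627370496 10 11 10 170 _ _ _ (by rw [if_pos (by norm_num)]; exact g10)
    f24 (by rw [if_neg (by norm_num)])

theorem q11 : Ok P 400000 n11 := Ok.app q10 (Ok.app o24 Ok.nil)

/-- Configurations below a prefix. -/
noncomputable def n12 : D := D.app n9 (D.app n11 D.nil)

theorem g12 : enumO 14 4503599627370496 10 13 10 10 n12 = O.some D.nil :=
  split 14 4503599627370496 10 12 10 10 _ _ _ (by rw [if_pos (by norm_num)]; exact g9)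
    g11 (by rw [if_neg (by norm_num)])

theorem q12 : Ok P 400000 n12 := Ok.app q9 (Ok.app q11 Ok.nil)

/-- Configurations below a prefix. -/
noncomputable def n13 : D := D.app p25 (D.app p26 p27)

theorem g13 : enumO 14 4503599627370496 11 11 9 2985 n13 = O.some D.nil :=
  split 14 4503599627370496 11 10 9 2985 _ _ _ (by rw [if_pos (by norm_num)]; exact f25)
    f26 (by rw [if_pos (by norm_num)]; exact f27)

theorem q13 : Ok P 400000 n13 := Ok.app o25 (Ok.app o26 o27)

/-- Configurations below a prefix. -/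
noncomputable def n14 : D := D.app p28 (D.app p29 p30)

theorem g14 : enumO 14 4503599627370496 11 11 10 2986 n14 = O.some D.nil :=
  split 14 4503599627370496 11 10 10 2986 _ _ _ (by rw [if_pos (by norm_num)]; exact f28)
    f29 (by rw [if_pos (by norm_num)]; exact f30)

theorem q14 : Ok P 400000 n14 := Ok.app o28 (Ok.app o29 o30)

/-- Configurations below a prefix. -/
noncomputable def n15 : D := D.app n13 (D.app n14 p31)

theorem g15 : enumO 14 4503599627370496 11 12 10 186 n15 = O.some D.nil :=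
  split 14 4503599627370496 11 11 10 186 _ _ _ (by rw [if_pos (by norm_num)]; exact g13)
    g14 (by rw [if_pos (by norm_num)]; exact f31)

theorem q15 : Ok P 400000 n15 := Ok.app q13 (Ok.app q14 o31)

/-- Configurations below a prefix. -/
noncomputable def n16 : D := D.app p32 (D.app p33 p34)

theorem g16 : enumO 14 4503599627370496 11 11 10 3002 n16 = O.some D.nil :=
  split 14 4503599627370496 11 10 10 3002 _ _ _ (by rw [if_pos (by norm_num)]; exact f32)
    f33 (by rw [if_pos (by norm_num)]; exact f34)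

theorem q16 : Ok P 400000 n16 := Ok.app o32 (Ok.app o33 o34)

/-- Configurations below a prefix. -/
noncomputable def n17 : D := D.app n16 (D.app p35 D.nil)

theorem g17 : enumO 14 4503599627370496 11 12 11 187 n17 = O.some D.nil :=
  split 14 4503599627370496 11 11 11 187 _ _ _ (by rw [if_pos (by norm_num)]; exact g16)
    f35 (by rw [if_neg (by norm_num)])

theorem q17 : Ok P 400000 n17 := Ok.app q16 (Ok.app o35 Ok.nil)

/-- Configurations below a prefix. -/
noncomputable def n18 : D := D.app n15 (D.app n17 D.nil)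

theorem g18 : enumO 14 4503599627370496 11 13 11 11 n18 = O.some D.nil :=
  split 14 4503599627370496 11 12 11 11 _ _ _ (by rw [if_pos (by norm_num)]; exact g15)
    g17 (by rw [if_neg (by norm_num)])

theorem q18 : Ok P 400000 n18 := Ok.app q15 (Ok.app q17 Ok.nil)

/-- Configurations below a prefix. -/
noncomputable def n19 : D := D.app p36 (D.app p37 p38)

theorem g19 : enumO 14 4503599627370496 12 11 10 3258 n19 = O.some D.nil :=
  split 14 4503599627370496 12 10 10 3258 _ _ _ (by rw [if_pos (by norm_num)]; exact f36)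
    f37 (by rw [if_pos (by norm_num)]; exact f38)

theorem q19 : Ok P 400000 n19 := Ok.app o36 (Ok.app o37 o38)

/-- Configurations below a prefix. -/
noncomputable def n20 : D := D.app p39 (D.app p40 p41)

theorem g20 : enumO 14 4503599627370496 12 11 11 3259 n20 = O.some D.nil :=
  split 14 4503599627370496 12 10 11 3259 _ _ _ (by rw [if_pos (by norm_num)]; exact f39)
    f40 (by rw [if_pos (by norm_num)]; exact f41)

theorem q20 : Ok P 400000 n20 := Ok.app o39 (Ok.app o40 o41)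

/-- Configurations below a prefix. -/
noncomputable def n21 : D := D.app n19 (D.app n20 p42)

theorem g21 : enumO 14 4503599627370496 12 12 11 203 n21 = O.some D.nil :=
  split 14 4503599627370496 12 11 11 203 _ _ _ (by rw [if_pos (by norm_num)]; exact g19)
    g20 (by rw [if_pos (by norm_num)]; exact f42)

theorem q21 : Ok P 400000 n21 := Ok.app q19 (Ok.app q20 o42)

/-- Configurations below a prefix. -/
noncomputable def n22 : D := D.app p43 (D.app p44 p45)

theorem g22 : enumO 14 4503599627370496 12 11 11 3275 n22 = O.some D.nil :=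
  split 14 4503599627370496 12 10 11 3275 _ _ _ (by rw [if_pos (by norm_num)]; exact f43)
    f44 (by rw [if_pos (by norm_num)]; exact f45)

theorem q22 : Ok P 400000 n22 := Ok.app o43 (Ok.app o44 o45)

/-- Configurations below a prefix. -/
noncomputable def n23 : D := D.app n22 (D.app p46 D.nil)

theorem g23 : enumO 14 4503599627370496 12 12 12 204 n23 = O.some D.nil :=
  split 14 4503599627370496 12 11 12 204 _ _ _ (by rw [if_pos (by norm_num)]; exact g22)
    f46 (by rw [if_neg (by norm_num)])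

theorem q23 : Ok P 400000 n23 := Ok.app q22 (Ok.app o46 Ok.nil)

/-- Configurations below a prefix. -/
noncomputable def n24 : D := D.app n21 (D.app n23 D.nil)

theorem g24 : enumO 14 4503599627370496 12 13 12 12 n24 = O.some D.nil :=
  split 14 4503599627370496 12 12 12 12 _ _ _ (by rw [if_pos (by norm_num)]; exact g21)
    g23 (by rw [if_neg (by norm_num)])

theorem q24 : Ok P 400000 n24 := Ok.app q21 (Ok.app q23 Ok.nil)

/-- Configurations below a prefix. -/
noncomputable def n25 : D := D.app p47 (D.app p48 p49)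

theorem g25 : enumO 14 4503599627370496 13 11 11 3531 n25 = O.some D.nil :=
  split 14 4503599627370496 13 10 11 3531 _ _ _ (by rw [if_pos (by norm_num)]; exact f47)
    f48 (by rw [if_pos (by norm_num)]; exact f49)

theorem q25 : Ok P 400000 n25 := Ok.app o47 (Ok.app o48 o49)

/-- Configurations below a prefix. -/
noncomputable def n26 : D := D.app p50 (D.app p51 p52)

theorem g26 : enumO 14 4503599627370496 13 11 12 3532 n26 = O.some D.nil :=
  split 14 4503599627370496 13 10 12 3532 _ _ _ (by rw [if_pos (by norm_num)]; exact f50)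
    f51 (by rw [if_pos (by norm_num)]; exact f52)

theorem q26 : Ok P 400000 n26 := Ok.app o50 (Ok.app o51 o52)

/-- Configurations below a prefix. -/
noncomputable def n27 : D := D.app n25 (D.app n26 p53)

theorem g27 : enumO 14 4503599627370496 13 12 12 220 n27 = O.some D.nil :=
  split 14 4503599627370496 13 11 12 220 _ _ _ (by rw [if_pos (by norm_num)]; exact g25)
    g26 (by rw [if_pos (by norm_num)]; exact f53)

theorem q27 : Ok P 400000 n27 := Ok.app q25 (Ok.app q26 o53)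

/-- Configurations below a prefix. -/
noncomputable def n28 : D := D.app p54 (D.app p55 p56)

theorem g28 : enumO 14 4503599627370496 13 11 12 3548 n28 = O.some D.nil :=
  split 14 4503599627370496 13 10 12 3548 _ _ _ (by rw [if_pos (by norm_num)]; exact f54)
    f55 (by rw [if_pos (by norm_num)]; exact f56)

theorem q28 : Ok P 400000 n28 := Ok.app o54 (Ok.app o55 o56)

/-- Configurations below a prefix. -/
noncomputable def n29 : D := D.app n28 (D.app p57 D.nil)

theorem g29 : enumO 14 4503599627370496 13 12 13 221 n29 = O.some D.nil :=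
  split 14 4503599627370496 13 11 13 221 _ _ _ (by rw [if_pos (by norm_num)]; exact g28)
    f57 (by rw [if_neg (by norm_num)])

theorem q29 : Ok P 400000 n29 := Ok.app q28 (Ok.app o57 Ok.nil)

/-- Configurations below a prefix. -/
noncomputable def n30 : D := D.app n27 (D.app n29 D.nil)

theorem g30 : enumO 14 4503599627370496 13 13 13 13 n30 = O.some D.nil :=
  split 14 4503599627370496 13 12 13 13 _ _ _ (by rw [if_pos (by norm_num)]; exact g27)
    g29 (by rw [if_neg (by norm_num)])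

theorem q30 : Ok P 400000 n30 := Ok.app q27 (Ok.app q29 Ok.nil)

/-- Configurations below a prefix. -/
noncomputable def n31 : D := D.app p58 (D.app p59 p60)

theorem g31 : enumO 14 4503599627370496 14 11 12 3804 n31 = O.some D.nil :=
  split 14 4503599627370496 14 10 12 3804 _ _ _ (by rw [if_pos (by norm_num)]; exact f58)
    f59 (by rw [if_pos (by norm_num)]; exact f60)

theorem q31 : Ok P 400000 n31 := Ok.app o58 (Ok.app o59 o60)

/-- Configurations below a prefix. -/
noncomputable def n32 : D := D.app p61 (D.app p62 p63)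

theorem g32 : enumO 14 4503599627370496 14 11 13 3805 n32 = O.some D.nil :=
  split 14 4503599627370496 14 10 13 3805 _ _ _ (by rw [if_pos (by norm_num)]; exact f61)
    f62 (by rw [if_pos (by norm_num)]; exact f63)

theorem q32 : Ok P 400000 n32 := Ok.app o61 (Ok.app o62 o63)

/-- Configurations below a prefix. -/
noncomputable def n33 : D := D.app n31 (D.app n32 p64)

theorem g33 : enumO 14 4503599627370496 14 12 13 237 n33 = O.some D.nil :=
  split 14 4503599627370496 14 11 13 237 _ _ _ (by rw [if_pos (by norm_num)]; exact g31)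
    g32 (by rw [if_pos (by norm_num)]; exact f64)

theorem q33 : Ok P 400000 n33 := Ok.app q31 (Ok.app q32 o64)

/-- Configurations below a prefix. -/
noncomputable def n34 : D := D.app p65 (D.app p66 p67)

theorem g34 : enumO 14 4503599627370496 14 11 13 3821 n34 = O.some D.nil :=
  split 14 4503599627370496 14 10 13 3821 _ _ _ (by rw [if_pos (by norm_num)]; exact f65)
    f66 (by rw [if_pos (by norm_num)]; exact f67)

theorem q34 : Ok P 400000 n34 := Ok.app o65 (Ok.app o66 o67)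

/-- Configurations below a prefix. -/
noncomputable def n35 : D := D.app n34 (D.app p68 D.nil)

theorem g35 : enumO 14 4503599627370496 14 12 14 238 n35 = O.some D.nil :=
  split 14 4503599627370496 14 11 14 238 _ _ _ (by rw [if_pos (by norm_num)]; exact g34)
    f68 (by rw [if_neg (by norm_num)])

theorem q35 : Ok P 400000 n35 := Ok.app q34 (Ok.app o68 Ok.nil)

/-- Configurations below a prefix. -/
noncomputable def n36 : D := D.app n33 (D.app n35 D.nil)

theorem g36 : enumO 14 4503599627370496 14 13 14 14 n36 = O.some D.nil :=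
  split 14 4503599627370496 14 12 14 14 _ _ _ (by rw [if_pos (by norm_num)]; exact g33)
    g35 (by rw [if_neg (by norm_num)])

theorem q36 : Ok P 400000 n36 := Ok.app q33 (Ok.app q35 Ok.nil)

theorem b6 : nilB (enumM 14 4503599627370496 6 D.nil) = true := by decide +kernel

/-- All configurations with first entry at most `6`. -/
noncomputable def a6 : D := D.nil

theorem m6 : enumM 14 4503599627370496 6 a6 = O.some D.nil := nilB_spec b6

theorem k6 : Ok P 400000 a6 := Ok.nil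

/-- All configurations with first entry at most `7`. -/
noncomputable def a7 : D := D.app a6 p0

theorem m7 : enumM 14 4503599627370496 7 a7 = O.some D.nil :=
  step 14 4503599627370496 6 _ _ m6 (by rw [if_pos (by norm_num)]; exact f0)

theorem k7 : Ok P 400000 a7 := Ok.app k6 o0

/-- All configurations with first entry at most `8`. -/
noncomputable def a8 : D := D.app a7 n0

theorem m8 : enumM 14 4503599627370496 8 a8 = O.some D.nil :=
  step 14 4503599627370496 7 _ _ m7 (by rw [if_pos (by norm_num)]; exact g0)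

theorem k8 : Ok P 400000 a8 := Ok.app k7 q0

/-- All configurations with first entry at most `9`. -/
noncomputable def a9 : D := D.app a8 n6

theorem m9 : enumM 14 4503599627370496 9 a9 = O.some D.nil :=
  step 14 4503599627370496 8 _ _ m8 (by rw [if_pos (by norm_num)]; exact g6)

theorem k9 : Ok P 400000 a9 := Ok.app k8 q6

/-- All configurations with first entry at most `10`. -/
noncomputable def a10 : D := D.app a9 n12

theorem m10 : enumM 14 4503599627370496 10 a10 = O.some D.nil :=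
  step 14 4503599627370496 9 _ _ m9 (by rw [if_pos (by norm_num)]; exact g12)

theorem k10 : Ok P 400000 a10 := Ok.app k9 q12

/-- All configurations with first entry at most `11`. -/
noncomputable def a11 : D := D.app a10 n18

theorem m11 : enumM 14 4503599627370496 11 a11 = O.some D.nil :=
  step 14 4503599627370496 10 _ _ m10 (by rw [if_pos (by norm_num)]; exact g18)

theorem k11 : Ok P 400000 a11 := Ok.app k10 q18

/-- All configurations with first entry at most `12`. -/
noncomputable def a12 : D := D.app a11 n24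

theorem m12 : enumM 14 4503599627370496 12 a12 = O.some D.nil :=
  step 14 4503599627370496 11 _ _ m11 (by rw [if_pos (by norm_num)]; exact g24)

theorem k12 : Ok P 400000 a12 := Ok.app k11 q24

/-- All configurations with first entry at most `13`. -/
noncomputable def a13 : D := D.app a12 n30

theorem m13 : enumM 14 4503599627370496 13 a13 = O.some D.nil :=
  step 14 4503599627370496 12 _ _ m12 (by rw [if_pos (by norm_num)]; exact g30)

theorem k13 : Ok P 400000 a13 := Ok.app k12 q30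

/-- All configurations with first entry at most `14`. -/
noncomputable def a14 : D := D.app a13 n36

theorem m14 : enumM 14 4503599627370496 14 a14 = O.some D.nil :=
  step 14 4503599627370496 13 _ _ m13 (by rw [if_pos (by norm_num)]; exact g36)

theorem k14 : Ok P 400000 a14 := Ok.app k13 q36

theorem compl : complB 14 a14 = true :=
  compl_of 14 4503599627370496 a14 (by decide +kernel) m14

theorem sym : symB P 14 = true := by decide +kernel

end Pool.Agent.TH688.FA
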