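import Pool.Agent.W664.Fill.KernV
import Pool.Agent.TH688.FA.Par

/-! # The flux through the boundary (generated) -/

namespace Pool.Agent.TH688.FA

open Pool.Agent.W664.Fill

theorem flux : fluxB P 14 189767032 = true := by decide +kernel

end Pool.Agent.TH688.FA
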