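import Pool.Agent.W664.Fill.Final
import Pool.Agent.TH688.FA.Asm
import Pool.Agent.TH688.FA.Flux

/-! # The area bound for `N = 14` -/

set_option autoImplicit false

open Real

namespace Pool.Agent.TH688.FA

open Pool.Agent.W664.Fill Pool.Agent.H115R3.Filling

theorem area_ge {M : Type} [MetricSpace M] (S : OrientedSurface M) (hS : S.NoShortcut) :
    ((189767032 : ℕ) : ℝ) / (4 * ((14 : ℕ) : ℝ) ^ 2 * ((400000 : ℕ) : ℝ)) * π ^ 2 ≤ S.area :=
  area_ge_cert S hS P 14 7 rfl (by norm_num) (by norm_num) rfl 400000 (by norm_num) a14 k14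
    compl sym 189767032 flux

end Pool.Agent.TH688.FA
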