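import Pool.Agent.TH688.FA.Nil
import Pool.Agent.TH688.FA.C243

/-! # The enumeration below some prefixes (generated) -/

namespace Pool.Agent.TH688.FA

open Pool.Agent.W664.Fill

/-- The canonical configurations below a prefix. -/
noncomputable def p54 : D := d742

theorem e54 : nilB (enumO 14 4503599627370496 13 10 11 56779 p54) = true := by decide +kernel

/-- The canonical configurations below a prefix. -/
noncomputable def p55 : D := d743

theorem e55 : nilB (enumO 14 4503599627370496 13 10 12 56780 p55) = true := by decide +kernel

/-- The canonical configurations below a prefix. -/
noncomputable def p56 : D := D.nil

theorem e56 : nilB (enumO 14 4503599627370496 13 10 13 56781 p56) = true := by decide +kernel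

/-- The canonical configurations below a prefix. -/
noncomputable def p57 : D := d744

theorem e57 : nilB (enumO 14 4503599627370496 13 11 13 3549 p57) = true := by decide +kernel

end Pool.Agent.TH688.FA
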