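import Pool.Agent.W664.Fill.Kern

/-! # The enumeration consumed the whole list -/

set_option autoImplicit false

namespace Pool.Agent.TH688.FA

open Pool.Agent.W664.Fill

/-- The enumeration succeeded and consumed the whole list. -/
noncomputable def nilB (o : O) : Bool :=
  O.rec (motive := fun _ => Bool) false
    (fun d => D.rec (motive := fun _ => Bool) true (fun _ _ _ _ => false) d) o

end Pool.Agent.TH688.FA
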