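import Pool.Agent.W664.Fill.Enum
import Pool.Agent.TH688.FA.Nil

/-! # Splitting the enumeration of the configurations -/

set_option autoImplicit false

namespace Pool.Agent.TH688.FA

open Pool.Agent.W664.Fill

lemma nilB_spec {o : O} (h : nilB o = true) : o = O.some D.nil := by
  cases o with
  | none => exact absurd h (by simp [nilB])
  | some d =>
    cases d with
    | nil => rfl
    | cons x L t => exact absurd h (by simp [nilB])

lemma app_nil_left (e : D) : D.app D.nil e = e := rfl

lemma app_cons (x L : ℕ) (t e : D) : D.app (D.cons x L t) e = D.cons x L (D.app t e) := rfl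

lemma app_assoc (a b c : D) : D.app (D.app a b) c = D.app a (D.app b c) := by
  induction a with
  | nil => rfl
  | cons x L t ih => rw [app_cons, app_cons, app_cons, ih]

lemma leafO_app (n2 B M k x : ℕ) (d d' e : D) (h : leafO n2 B M k x d = O.some d') :
    leafO n2 B M k x (D.app d e) = O.some (D.app d' e) := by
  rw [leafO_eq] at h ⊢
  split_ifs at h ⊢ with h1 h2 h3
  · cases d with
    | nil => exact absurd h (by simp)
    | cons y K t =>
      rw [app_cons]
      simp only at h ⊢
      split_ifs at h ⊢ with h4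
      · injection h with h; rw [h]
  all_goals (injection h with h; rw [h])

lemma enumO_app (n2 B M : ℕ) : ∀ (r k x : ℕ) (d d' e : D),
    enumO n2 B M r k x d = O.some d' → enumO n2 B M r k x (D.app d e) = O.some (D.app d' e)
  | 0, k, x, d, d', e, h => leafO_app n2 B M k x d d' e h
  | r + 1, k, x, d, d', e, h => by
    rw [enumO_succ] at h ⊢
    obtain ⟨d1, h1, h⟩ := bnd_some h
    obtain ⟨d2, h2, h⟩ := bnd_some h
    have e1 : (if n2 - M + 1 ≤ k then
        enumO n2 B M r (k - 1) (16 * x + (k - 1)) (D.app d e) else O.some (D.app d e))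
        = O.some (D.app d1 e) := by
      split_ifs at h1 ⊢ with hc
      · exact enumO_app n2 B M r _ _ _ _ _ h1
      · injection h1 with h1; rw [h1]
    rw [e1]
    simp only [O.bnd]
    rw [enumO_app n2 B M r _ _ _ _ e h2]
    simp only
    split_ifs at h ⊢ with hc
    · exact enumO_app n2 B M r _ _ _ _ _ h
    · injection h with h; rw [h]

/-- Splitting a node of the enumeration. -/
lemma split (n2 B M r k x : ℕ) (a b c : D)
    (h1 : if n2 - M + 1 ≤ k then enumO n2 B M r (k - 1) (16 * x + (k - 1)) a = O.some D.nil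
      else a = D.nil)
    (h2 : enumO n2 B M r k (16 * x + k) b = O.some D.nil)
    (h3 : if k + 1 ≤ M then enumO n2 B M r (k + 1) (16 * x + (k + 1)) c = O.some D.nil
      else c = D.nil) :
    enumO n2 B M (r + 1) k x (D.app a (D.app b c)) = O.some D.nil := by
  rw [enumO_succ]
  have e1 : (if n2 - M + 1 ≤ k then
      enumO n2 B M r (k - 1) (16 * x + (k - 1)) (D.app a (D.app b c))
      else O.some (D.app a (D.app b c))) = O.some (D.app b c) := by
    split_ifs at h1 ⊢ with hc
    · exact enumO_app n2 B M r _ _ _ _ _ h1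
    · rw [h1]; rfl
  rw [e1]
  simp only [O.bnd]
  rw [enumO_app n2 B M r _ _ _ _ c h2]
  simp only [app_nil_left]
  split_ifs at h3 ⊢ with hc
  · exact h3
  · rw [h3]

/-- Adding the configurations with first entry `t + 1`. -/
lemma enumM_step (n2 B t : ℕ) (d e : D) (h : enumM n2 B t d = O.some D.nil)
    (h1 : if n2 ≤ 2 * (t + 1) then enumO n2 B (t + 1) (n2 - 1) (t + 1) (t + 1) e = O.some D.nil
      else e = D.nil) (happ : ∀ d d' e : D, enumM n2 B t d = O.some d' →
        enumM n2 B t (D.app d e) = O.some (D.app d' e)) :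
    enumM n2 B (t + 1) (D.app d e) = O.some D.nil := by
  rw [enumM_succ, happ _ _ e h]
  simp only [O.bnd, app_nil_left]
  split_ifs at h1 ⊢ with hc
  · exact h1
  · rw [h1]

lemma enumM_app (n2 B : ℕ) : ∀ (t : ℕ) (d d' e : D), enumM n2 B t d = O.some d' →
    enumM n2 B t (D.app d e) = O.some (D.app d' e)
  | 0, d, d', e, h => by
    have h1 : ∀ d, enumM n2 B 0 d = Bool.rec (motive := fun _ => O) (O.some d)
      (enumO n2 B 0 (n2 - 1) 0 0 d) (Nat.ble n2 0) := fun _ => rfl
    rw [h1, brec_ite (n2 ≤ 0) _ (ble_iff _ _)] at h ⊢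
    split_ifs at h ⊢ with hc
    · exact enumO_app n2 B 0 _ _ _ _ _ _ h
    · injection h with h; rw [h]
  | t + 1, d, d', e, h => by
    rw [enumM_succ] at h ⊢
    obtain ⟨d1, h1, h⟩ := bnd_some h
    rw [enumM_app n2 B t d d1 e h1]
    simp only [O.bnd]
    split_ifs at h ⊢ with hc
    · exact enumO_app n2 B _ _ _ _ _ _ _ h
    · injection h with h; rw [h]

lemma step (n2 B t : ℕ) (d e : D) (h : enumM n2 B t d = O.some D.nil)
    (h1 : if n2 ≤ 2 * (t + 1) then enumO n2 B (t + 1) (n2 - 1) (t + 1) (t + 1) e = O.some D.nil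
      else e = D.nil) :
    enumM n2 B (t + 1) (D.app d e) = O.some D.nil :=
  enumM_step n2 B t d e h h1 (enumM_app n2 B t)

/-- The certificates of a list are correct. -/
def Ok (P : Par) (s2 : ℕ) (d : D) : Prop := ∀ x L, Dmem x L d → leafB P s2 x L = true

lemma Ok.of_chk {P : Par} {s2 : ℕ} {d : D} (h : chkD P s2 d = true) : Ok P s2 d :=
  chkD_sound P s2 d h

lemma Ok.nil {P : Par} {s2 : ℕ} : Ok P s2 D.nil := Ok.of_chk rfl

lemma Ok.app {P : Par} {s2 : ℕ} {d e : D} (h1 : Ok P s2 d) (h2 : Ok P s2 e) :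
    Ok P s2 (D.app d e) :=
  app_ok h1 h2

end Pool.Agent.TH688.FA
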